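import Pool.Agent.K6.H74.PE.Stm

/-! # Piece CONE (by helper71, after the odd case by helper90): the classes are cones -/

namespace H74PE

namespace CONE

open H74PK (Cone)

variable {K : Type} [Field K]

lemma sc (ρ β z0 z1 t : K) : Cone (SC ρ β z0 z1 t) := by
  intro p c hc h
  rcases h with ⟨h1, h2, h3⟩ | ⟨h1, d, hd, h2, h3, h4⟩
  · refine Or.inl ⟨?_, ?_, ?_⟩
    · rcases h1 with h1 | h1
      · exact Or.inl (by simpa using And.intro hc h1)
      · exact Or.inr (by simpa using And.intro hc h1)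
    · simp only [Pi.smul_apply, smul_eq_mul]
      linear_combination c * h2
    · simp only [Pi.smul_apply, smul_eq_mul]
      linear_combination c * h3
  · refine Or.inr ⟨?_, c * d, mul_ne_zero hc hd, ?_, ?_, ?_⟩
    · simp [h1]
    · simp only [Pi.smul_apply, smul_eq_mul, h2]; ring
    · simp only [Pi.smul_apply, smul_eq_mul, h3]; ring
    · simp only [Pi.smul_apply, smul_eq_mul, h4]; ring

lemma ww (β b : K) : Cone (WW β b) := by
  intro p c hc h
  rcases h with ⟨h1, h2, h3, h4⟩ | ⟨h1, h2, h3, h4⟩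
  · refine Or.inl ⟨by simp [h1], ?_, by simpa using And.intro hc h3, ?_⟩
    · simp only [Pi.smul_apply, smul_eq_mul]
      linear_combination c * h2
    · simp only [Pi.smul_apply, smul_eq_mul]
      intro h
      exact h4 (mul_left_cancel₀ hc (by linear_combination h))
  · refine Or.inr ⟨by simp [h1], by simp [h2], by simpa using And.intro hc h3, ?_⟩
    simp only [Pi.smul_apply, smul_eq_mul]
    linear_combination c * h4

lemma sh (ρ β : K) : Cone (SH ρ β) := by
  intro p c hc h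
  obtain ⟨h1, h2⟩ := h
  refine ⟨by simp [h1], ?_⟩
  simp only [Pi.smul_apply, smul_eq_mul]
  linear_combination c * h2

lemma yh : Cone (YH (K := K)) := by
  intro p c hc h
  rcases h with ⟨h1, h2, h3⟩ | ⟨h1, h2, h3, h4⟩
  · exact Or.inl ⟨by simp [h1], by simp [h2], by simpa using And.intro hc h3⟩
  · exact Or.inr ⟨by simp [h1], by simp [h2], by simp [h3], by simpa using And.intro hc h4⟩

lemma yj : Cone (YJ (K := K)) := by
  intro p c hc h
  rcases h with ⟨h1, h2, h3⟩ | ⟨h1, h2, h3, h4⟩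
  · exact Or.inl ⟨by simp [h1], by simp [h2], by simpa using And.intro hc h3⟩
  · exact Or.inr ⟨by simp [h1], by simp [h2], by simp [h3], by simpa using And.intro hc h4⟩

lemma tt : Cone (TT (K := K)) := by
  intro p c hc h
  obtain ⟨h1, h2⟩ := h
  exact ⟨by simp [h1], by simp [h2]⟩

lemma xx (β : K) : Cone (XX β) := by
  intro p c hc h
  rcases h with ⟨h1, h2, h3⟩ | ⟨h1, h2, h3, h4⟩
  · refine Or.inl ⟨by simp [h1], ?_, ?_⟩
    · simp only [Pi.smul_apply, smul_eq_mul]
      linear_combination c * h2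
    · simp only [Pi.smul_apply, smul_eq_mul]
      intro h
      exact h3 (mul_left_cancel₀ hc h)
  · refine Or.inr ⟨by simp [h1], by simp [h2], ?_, by simpa using And.intro hc h4⟩
    simp only [Pi.smul_apply, smul_eq_mul]
    linear_combination c * h3

end CONE

theorem t_CONE : S_CONE := by
  intro K _ ρ β
  refine ⟨?_, ?_⟩
  · rintro (⟨r, t⟩ | t | u)
    · intro p c hc h
      rcases h with ⟨h1, h2⟩ | ⟨h1, h2, h3⟩ | ⟨h1, h2, h3⟩
      · exact Or.inl ⟨h1, CONE.sc ρ β 1 r t p c hc h2⟩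
      · exact Or.inr (Or.inl ⟨h1, h2, CONE.sc ρ β 1 0 0 p c hc h3⟩)
      · exact Or.inr (Or.inr ⟨h1, h2, CONE.ww β t p c hc h3⟩)
    · intro p c hc h
      rcases h with ⟨h1, h2⟩ | ⟨h1, h2⟩
      · exact Or.inl ⟨h1, CONE.sc ρ β 0 1 t p c hc h2⟩
      · exact Or.inr ⟨h1, CONE.yh p c hc h2⟩
    · exact CONE.sh ρ β
  · rintro (⟨r, t⟩ | t | u)
    · intro p c hc h
      rcases h with ⟨h1, h2⟩ | ⟨h1, h2, h3⟩ | ⟨h1, h2, h3⟩ | ⟨h1, h2, h3, h4⟩
      · exact Or.inl ⟨h1, CONE.sc ρ β 1 r t p c hc h2⟩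
      · exact Or.inr (Or.inl ⟨h1, h2, CONE.xx β p c hc h3⟩)
      · exact Or.inr (Or.inr (Or.inl ⟨h1, h2, CONE.tt p c hc h3⟩))
      · exact Or.inr (Or.inr (Or.inr ⟨h1, h2, h3, CONE.ww β t p c hc h4⟩))
    · exact CONE.sc ρ β 0 1 t
    · exact CONE.yj

end H74PE
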