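import Pool.Agent.K6.H74.PE.Stm

/-! Piece COV (helper75). -/

set_option autoImplicit false

namespace H74PE

theorem t_COV : S_COV := by
  intro K _ ρ β hH p hp hQ h01
  obtain ⟨h2, hρ, -⟩ := hH
  have hN : ∀ x y : K, NF ρ x y = 0 → x = 0 ∧ y = 0 := by
    intro x y h
    unfold NF at h
    have hy : y = 0 := by
      by_contra hy
      apply hρ (x / y)
      field_simp
      linear_combination h - ρ ^ 2 * y ^ 2 * h2
    refine ⟨?_, hy⟩
    rw [hy] at h
    have : x ^ 2 = 0 := by linear_combination h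
    exact pow_eq_zero_iff (two_ne_zero) |>.1 this
  unfold QE at hQ
  by_cases h5 : p 5 = 0
  · by_cases hp2 : p 2 = 0
    · have hp3 : p 3 ≠ 0 := by
        intro hp3
        have h := hN (p 0) (p 1) (by
          rw [h5, hp2, hp3] at hQ
          have h0 : NF ρ (0 : K) 0 = 0 := by unfold NF; ring
          rw [h0] at hQ
          linear_combination hQ)
        rcases h01 with h0 | h1
        · exact h0 h.1
        · exact h1 h.2
      right
      refine ⟨p 4 / p 3, Or.inr ⟨h5, p 3, hp3, ?_, ?_, ?_⟩⟩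
      · rw [hp2, mul_zero]
      · rw [mul_one]
      · field_simp
    · left
      refine ⟨p 3 / p 2, p 4 / p 2, Or.inr ⟨h5, p 2, hp2, ?_, ?_, ?_⟩⟩
      · rw [mul_one]
      · field_simp
      · field_simp
  · by_cases h0 : p 0 = 0
    · right
      refine ⟨(β * (p 0 * 0 + p 0 * 1 + ρ ^ 2 * p 1 * 1) + (p 2 * 1 + p 3 * 0)) / p 5,
        Or.inl ⟨h01, ?_, ?_⟩⟩
      · rw [h0]; ring
      · rw [div_mul_cancel₀ _ h5]
    · left
      refine ⟨p 1 / p 0, (β * (p 0 * 1 + p 0 * (p 1 / p 0) + ρ ^ 2 * p 1 * (p 1 / p 0)) +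
        (p 2 * (p 1 / p 0) + p 3 * 1)) / p 5, Or.inl ⟨h01, ?_, ?_⟩⟩
      · field_simp
      · rw [div_mul_cancel₀ _ h5]

end H74PE
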