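import Pool.Agent.K6.H74.PE.Stm

/-!
# Piece CSC (characteristic two)
-/

set_option autoImplicit false

namespace H74PE

namespace CSC

variable {K : Type} [Field K]

theorem nz {ρ : K} (h2 : (2 : K) = 0) (hρ : ∀ t : K, t ^ 2 + t ≠ ρ ^ 2) {a b : K}
    (h : NF ρ a b = 0) : a = 0 ∧ b = 0 := by
  unfold NF at h
  by_cases hb : b = 0
  · rw [hb] at h
    have h1 : a ^ 2 = 0 := by linear_combination h
    exact ⟨pow_eq_zero_iff (two_ne_zero) |>.1 h1, hb⟩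
  · exfalso
    apply hρ (a / b)
    have hb2 : b ^ 2 ≠ 0 := pow_ne_zero 2 hb
    have h3 : (a / b) ^ 2 + a / b = (a ^ 2 + a * b) / b ^ 2 := by
      field_simp
    rw [h3, div_eq_iff hb2]
    linear_combination h - ρ ^ 2 * b ^ 2 * h2

theorem NF_mul {ρ : K} (h2 : (2 : K) = 0) (y0 y1 z0 z1 : K) :
    NF ρ (y0 * z0 + y0 * z1 + ρ ^ 2 * y1 * z1) (y0 * z1 + y1 * z0) = NF ρ y0 y1 * NF ρ z0 z1 := by
  unfold NF
  grind

/-- if `N(y) = l ^ 2 n` and `det (y, z) = β l n`, `n = N(z)`, then `l = 0` -/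
theorem beta {ρ β : K} (h : Hyp ρ β) {z0 z1 y0 y1 l : K} (hz : z0 ≠ 0 ∨ z1 ≠ 0)
    (h1 : NF ρ y0 y1 = l ^ 2 * NF ρ z0 z1) (h3 : y0 * z1 + y1 * z0 = β * l * NF ρ z0 z1) :
    l = 0 := by
  obtain ⟨h2, hρ, hβ⟩ := h
  by_contra hl
  have hn : NF ρ z0 z1 ≠ 0 := by
    intro hn
    obtain ⟨a, b⟩ := nz h2 hρ hn
    rcases hz with h | h
    · exact h a
    · exact h b
  have hm := NF_mul (ρ := ρ) h2 y0 y1 z0 z1
  set n := NF ρ z0 z1 with hnd
  set m := y0 * z0 + y0 * z1 + ρ ^ 2 * y1 * z1 with hmd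
  have hln : l * n ≠ 0 := mul_ne_zero hl hn
  refine hβ (m / (l * n)) β ?_ rfl
  rw [h1, h3] at hm
  unfold NF at hm ⊢
  have h4 : (m / (l * n)) ^ 2 + m / (l * n) * β + ρ ^ 2 * β ^ 2 =
      (m ^ 2 + m * (β * l * n) + ρ ^ 2 * (β * l * n) ^ 2) / (l * n) ^ 2 := by
    field_simp
  rw [h4, hm, div_eq_one_iff_eq (pow_ne_zero 2 hln)]
  ring

theorem param {ρ z0 z1 x0 x1 : K} (h2 : (2 : K) = 0) (hn : NF ρ z0 z1 ≠ 0)
    (h : x0 * z1 = x1 * z0) : ∃ l : K, x0 = l * z0 ∧ x1 = l * z1 := by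
  refine ⟨(x0 * z0 + x0 * z1 + ρ ^ 2 * x1 * z1) / NF ρ z0 z1, ?_, ?_⟩
  · rw [div_mul_eq_mul_div, eq_div_iff hn]
    unfold NF
    linear_combination (ρ ^ 2 * z1) * h
  · rw [div_mul_eq_mul_div, eq_div_iff hn]
    unfold NF
    linear_combination -(z0 + z1) * h

theorem lemA {ρ β z0 z1 x0 x1 y0 y1 : K} (h : Hyp ρ β) (hz : z0 ≠ 0 ∨ z1 ≠ 0)
    (hx : x0 * z1 = x1 * z0)
    (hy : β * (x0 * z0 + x0 * z1 + ρ ^ 2 * x1 * z1) + (y0 * z1 + y1 * z0) = 0)
    (hQ : NF ρ x0 x1 + NF ρ y0 y1 = 0) : x0 = 0 ∧ x1 = 0 ∧ y0 = 0 ∧ y1 = 0 := by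
  have h2 := h.1
  have hn : NF ρ z0 z1 ≠ 0 := by
    intro hn
    obtain ⟨a, b⟩ := nz h2 h.2.1 hn
    rcases hz with h | h
    · exact h a
    · exact h b
  obtain ⟨l, rfl, rfl⟩ := param h2 hn hx
  have h3 : NF ρ y0 y1 = l ^ 2 * NF ρ z0 z1 := by
    unfold NF at hQ ⊢
    linear_combination hQ - (l ^ 2 * (z0 ^ 2 + z0 * z1 + ρ ^ 2 * z1 ^ 2)) * h2
  have h4 : y0 * z1 + y1 * z0 = β * l * NF ρ z0 z1 := by
    unfold NF
    linear_combination hy - (β * l * (z0 ^ 2 + z0 * z1 + ρ ^ 2 * z1 ^ 2)) * h2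
  have hl := beta h hz h3 h4
  subst hl
  have h5 : NF ρ y0 y1 = 0 := by rw [h3]; ring
  obtain ⟨a, b⟩ := nz h2 h.2.1 h5
  exact ⟨by ring, by ring, a, b⟩

end CSC

theorem t_CSC : S_CSC := by
  intro K _ ρ β z0 z1 t h hz p q hp hq hQp hQq hXp hXq hB
  have h2 := h.1
  have hn : NF ρ z0 z1 ≠ 0 := by
    intro hn
    obtain ⟨a, b⟩ := CSC.nz h2 h.2.1 hn
    rcases hz with h | h
    · exact h a
    · exact h b
  unfold QE at hQp hQq
  unfold BE at hB
  have hne5 : ∀ p : Fin 6 → K, NF ρ (p 0) (p 1) + NF ρ (p 2) (p 3) + p 4 * p 5 = 0 →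
      (p 0 ≠ 0 ∨ p 1 ≠ 0) → p 0 * z1 = p 1 * z0 →
      t * p 5 = β * (p 0 * z0 + p 0 * z1 + ρ ^ 2 * p 1 * z1) + (p 2 * z1 + p 3 * z0) →
      p 5 ≠ 0 := by
    intro p hQ h01 h1 h3 h5
    rw [h5] at hQ h3
    have h3' : β * (p 0 * z0 + p 0 * z1 + ρ ^ 2 * p 1 * z1) + (p 2 * z1 + p 3 * z0) = 0 := by
      linear_combination -h3
    have hQ' : NF ρ (p 0) (p 1) + NF ρ (p 2) (p 3) = 0 := by linear_combination hQ
    obtain ⟨a0, a1, -, -⟩ := CSC.lemA h hz h1 h3' hQ'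
    rcases h01 with h | h
    · exact h a0
    · exact h a1
  have mixed : ∀ p q : Fin 6 → K,
      NF ρ (q 0) (q 1) + NF ρ (q 2) (q 3) + q 4 * q 5 = 0 →
      (p 0 ≠ 0 ∨ p 1 ≠ 0) → p 0 * z1 = p 1 * z0 →
      t * p 5 = β * (p 0 * z0 + p 0 * z1 + ρ ^ 2 * p 1 * z1) + (p 2 * z1 + p 3 * z0) →
      q 5 = 0 → ∀ c : K, c ≠ 0 → q 2 = c * z0 → q 3 = c * z1 → q 4 = c * t →
      p 0 * q 1 + p 1 * q 0 + p 2 * q 3 + p 3 * q 2 + p 4 * q 5 + p 5 * q 4 = 0 → False := by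
    intro p q hQq h01 h1 h3 h5 c hc c2 c3 c4 hB
    rw [c2, c3, c4, h5] at hB
    obtain ⟨l, hl0, hl1⟩ := CSC.param h2 hn h1
    have hl : l ≠ 0 := by
      rintro rfl
      rcases h01 with h | h
      · exact h (by rw [hl0, zero_mul])
      · exact h (by rw [hl1, zero_mul])
    have h6 : l * ((z0 * q 1 + z1 * q 0) + c * β * NF ρ z0 z1) = 0 := by
      unfold NF
      rw [hl0, hl1] at hB h3
      linear_combination hB - c * h3 - c * (p 2 * z1 + p 3 * z0) * h2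
    have h7 : (z0 * q 1 + z1 * q 0) + c * β * NF ρ z0 z1 = 0 :=
      (mul_eq_zero.1 h6).resolve_left hl
    have h8 : q 0 * z1 + q 1 * z0 = β * c * NF ρ z0 z1 := by
      linear_combination h7 - (c * β * NF ρ z0 z1) * h2
    have h9 : NF ρ (q 0) (q 1) = c ^ 2 * NF ρ z0 z1 := by
      rw [c2, c3, c4, h5] at hQq
      have e : NF ρ (c * z0) (c * z1) = c ^ 2 * NF ρ z0 z1 := by
        unfold NF
        ring
      rw [e] at hQq
      linear_combination hQq - (c ^ 2 * NF ρ z0 z1) * h2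
    exact hc (CSC.beta h hz h9 h8)
  rcases hXp with ⟨p01, p1, p3⟩ | ⟨p5, c, hc, c2, c3, c4⟩
  · rcases hXq with ⟨q01, q1, q3⟩ | ⟨q5, c', hc', c2', c3', c4'⟩
    · have hp5 := hne5 p hQp p01 p1 p3
      have hq5 := hne5 q hQq q01 q1 q3
      have e1 : (q 5 * p 0 + p 5 * q 0) * z1 = (q 5 * p 1 + p 5 * q 1) * z0 := by
        linear_combination q 5 * p1 + p 5 * q1
      have e2 : β * ((q 5 * p 0 + p 5 * q 0) * z0 + (q 5 * p 0 + p 5 * q 0) * z1 +
          ρ ^ 2 * (q 5 * p 1 + p 5 * q 1) * z1) +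
          ((q 5 * p 2 + p 5 * q 2) * z1 + (q 5 * p 3 + p 5 * q 3) * z0) = 0 := by
        linear_combination -q 5 * p3 - p 5 * q3 + t * p 5 * q 5 * h2
      have e3 : NF ρ (q 5 * p 0 + p 5 * q 0) (q 5 * p 1 + p 5 * q 1) +
          NF ρ (q 5 * p 2 + p 5 * q 2) (q 5 * p 3 + p 5 * q 3) = 0 := by
        unfold NF at hQp hQq ⊢
        grind
      obtain ⟨a0, a1, a2, a3⟩ := CSC.lemA h hz e1 e2 e3
      have a4 : q 5 * p 4 + p 5 * q 4 = 0 := by
        have h6 : (p 5 * q 5) * (q 5 * p 4 + p 5 * q 4) = 0 := by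
          have b0 : q 5 * p 0 = p 5 * q 0 := by linear_combination a0 - p 5 * q 0 * h2
          have b1 : q 5 * p 1 = p 5 * q 1 := by linear_combination a1 - p 5 * q 1 * h2
          have b2 : q 5 * p 2 = p 5 * q 2 := by linear_combination a2 - p 5 * q 2 * h2
          have b3 : q 5 * p 3 = p 5 * q 3 := by linear_combination a3 - p 5 * q 3 * h2
          have e4 : q 5 ^ 2 * NF ρ (p 0) (p 1) = p 5 ^ 2 * NF ρ (q 0) (q 1) := by
            have : NF ρ (q 5 * p 0) (q 5 * p 1) = NF ρ (p 5 * q 0) (p 5 * q 1) := by rw [b0, b1]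
            unfold NF at this ⊢
            linear_combination this
          have e5 : q 5 ^ 2 * NF ρ (p 2) (p 3) = p 5 ^ 2 * NF ρ (q 2) (q 3) := by
            have : NF ρ (q 5 * p 2) (q 5 * p 3) = NF ρ (p 5 * q 2) (p 5 * q 3) := by rw [b2, b3]
            unfold NF at this ⊢
            linear_combination this
          linear_combination q 5 ^ 2 * hQp - p 5 ^ 2 * hQq - e4 - e5 +
            p 5 ^ 2 * q 5 * q 4 * h2
        rcases mul_eq_zero.1 h6 with h | h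
        · exact absurd h (mul_ne_zero hp5 hq5)
        · exact h
      refine ⟨q 5 / p 5, ?_⟩
      funext i
      rw [Pi.smul_apply, smul_eq_mul, div_mul_eq_mul_div, eq_div_iff hp5]
      fin_cases i
      · show q 0 * p 5 = q 5 * p 0
        linear_combination -a0 + q 0 * p 5 * h2
      · show q 1 * p 5 = q 5 * p 1
        linear_combination -a1 + q 1 * p 5 * h2
      · show q 2 * p 5 = q 5 * p 2
        linear_combination -a2 + q 2 * p 5 * h2
      · show q 3 * p 5 = q 5 * p 3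
        linear_combination -a3 + q 3 * p 5 * h2
      · show q 4 * p 5 = q 5 * p 4
        linear_combination -a4 + q 4 * p 5 * h2
      · show q 5 * p 5 = q 5 * p 5
        rfl
    · exact (mixed p q hQq p01 p1 p3 q5 c' hc' c2' c3' c4' hB).elim
  · rcases hXq with ⟨q01, q1, q3⟩ | ⟨q5, c', hc', c2', c3', c4'⟩
    · exact (mixed q p hQp q01 q1 q3 p5 c hc c2 c3 c4 (by linear_combination hB)).elim
    · have hd : NF ρ (c' * p 0 + c * q 0) (c' * p 1 + c * q 1) = 0 := by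
        rw [c2, c3, c4, p5] at hQp hB
        rw [c2', c3', c4', q5] at hQq hB
        unfold NF at hQp hQq ⊢
        grind
      obtain ⟨a0, a1⟩ := CSC.nz h2 h.2.1 hd
      refine ⟨c' / c, ?_⟩
      funext i
      rw [Pi.smul_apply, smul_eq_mul, div_mul_eq_mul_div, eq_div_iff hc]
      fin_cases i
      · show q 0 * c = c' * p 0
        linear_combination -a0 + q 0 * c * h2
      · show q 1 * c = c' * p 1
        linear_combination -a1 + q 1 * c * h2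
      · show q 2 * c = c' * p 2
        rw [c2, c2']
        ring
      · show q 3 * c = c' * p 3
        rw [c3, c3']
        ring
      · show q 4 * c = c' * p 4
        rw [c4, c4']
        ring
      · show q 5 * c = c' * p 5
        rw [p5, q5]
        ring

end H74PE
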