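import Pool.Agent.K6.H74.PE.Stm

/-! Piece CSH of call74e (helper82): the regular spread `Sigma'_h` is a cap. -/

set_option autoImplicit false

namespace H74PE

namespace CSH

variable {K : Type} [Field K]

/-- the norm form is anisotropic -/
theorem NF_zero {ρ : K} (h2 : (2 : K) = 0) (hρ : ∀ t : K, t ^ 2 + t ≠ ρ ^ 2) {a b : K}
    (h : NF ρ a b = 0) : a = 0 ∧ b = 0 := by
  unfold NF at h
  by_cases hb : b = 0
  · subst hb
    refine ⟨?_, rfl⟩
    have : a ^ 2 = 0 := by linear_combination h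
    exact pow_eq_zero_iff two_ne_zero |>.1 this
  · exfalso
    apply hρ (a / b)
    field_simp
    linear_combination h - ρ ^ 2 * b ^ 2 * h2

/-- `QE` of `s • p + t • q` -/
theorem QE_comb {ρ : K} (h2 : (2 : K) = 0) (p q : Fin 6 → K) (s t : K) (hp : QE ρ p = 0)
    (hq : QE ρ q = 0) (h : BE p q = 0) : QE ρ (fun i => s * p i + t * q i) = 0 := by
  unfold QE NF BE at *
  linear_combination s ^ 2 * hp + t ^ 2 * hq + s * t * h +
    (s * t * (p 0 * q 0 + ρ ^ 2 * p 1 * q 1 + p 2 * q 2 + ρ ^ 2 * p 3 * q 3)) * h2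

/-- proportional if the first four coordinates are, and `p 5 ≠ 0` -/
theorem pivot5 (h2 : (2 : K) = 0) {p q : Fin 6 → K} (hp : p 5 ≠ 0) (h : BE p q = 0)
    (h0 : q 5 * p 0 + p 5 * q 0 = 0) (h1 : q 5 * p 1 + p 5 * q 1 = 0)
    (h3 : q 5 * p 2 + p 5 * q 2 = 0) (h4 : q 5 * p 3 + p 5 * q 3 = 0) :
    ∃ c : K, q = c • p := by
  have h5 : q 5 * p 4 + p 5 * q 4 = 0 := by
    have : p 5 * (q 5 * p 4 + p 5 * q 4) = 0 := by
      unfold BE at h
      linear_combination p 5 * h - p 1 * h0 - p 0 * h1 - p 3 * h3 - p 2 * h4 +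
        (q 5 * p 0 * p 1 + q 5 * p 2 * p 3) * h2
    exact (mul_eq_zero.1 this).resolve_left hp
  refine ⟨q 5 / p 5, ?_⟩
  funext i
  rw [Pi.smul_apply, smul_eq_mul, div_mul_eq_mul_div, eq_div_iff hp]
  fin_cases i
  · show q 0 * p 5 = q 5 * p 0
    linear_combination h0 - q 5 * p 0 * h2
  · show q 1 * p 5 = q 5 * p 1
    linear_combination h1 - q 5 * p 1 * h2
  · show q 2 * p 5 = q 5 * p 2
    linear_combination h3 - q 5 * p 2 * h2
  · show q 3 * p 5 = q 5 * p 3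
    linear_combination h4 - q 5 * p 3 * h2
  · show q 4 * p 5 = q 5 * p 4
    linear_combination h5 - q 5 * p 4 * h2
  · show q 5 * p 5 = q 5 * p 5
    rfl

/-- elements with `p 5 = 0` -/
theorem zero5 {ρ β : K} (hH : Hyp ρ β) {p : Fin 6 → K} (hp : QE ρ p = 0) (h : SH ρ β p)
    (h5 : p 5 = 0) : p 0 = 0 ∧ p 1 = 0 ∧ p 2 = 0 ∧ p 3 = 0 := by
  obtain ⟨h2, hρ, hβ⟩ := hH
  obtain ⟨h0, hp2⟩ := h
  have hρ0 : ρ ≠ 0 := by
    rintro rfl
    exact hρ 0 (by ring)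
  have h1 : p 1 = 0 := by
    by_contra h1
    refine hβ (p 3 / p 1) β ?_ rfl
    unfold QE NF at hp
    rw [h0, h5, hp2] at hp
    unfold NF
    have e1 : ρ ^ 2 * (p 3 ^ 2 + p 3 * p 1 * β + ρ ^ 2 * p 1 ^ 2 * β ^ 2) = ρ ^ 2 * p 1 ^ 2 := by
      linear_combination hp - p 1 ^ 2 * ρ ^ 2 * h2
    have e2 := mul_left_cancel₀ (pow_ne_zero 2 hρ0) e1
    field_simp
    linear_combination e2
  have e2 : p 2 = 0 := by rw [hp2, h1, mul_zero]
  refine ⟨h0, h1, e2, ?_⟩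
  unfold QE NF at hp
  rw [h0, h1, e2, h5] at hp
  have : ρ ^ 2 * p 3 ^ 2 = 0 := by linear_combination hp
  rcases mul_eq_zero.1 this with h6 | h6
  · exact absurd (pow_eq_zero_iff two_ne_zero |>.1 h6) hρ0
  · exact pow_eq_zero_iff two_ne_zero |>.1 h6

end CSH

open CSH in
/-- CSH -/
theorem t_CSH : S_CSH := by
  intro K _ ρ β hH p q hp0 hq0 hp hq hXp hXq h
  have h2 := hH.1
  have single : ∀ r : Fin 6 → K, r ≠ 0 → r 0 = 0 ∧ r 1 = 0 ∧ r 2 = 0 ∧ r 3 = 0 → r 5 = 0 →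
      r 4 ≠ 0 := by
    rintro r hr ⟨a0, a1, a2, a3⟩ a5 a4
    apply hr
    funext i
    fin_cases i <;> assumption
  by_cases hp5 : p 5 = 0
  · have z := zero5 hH hp hXp hp5
    have p4 := single p hp0 z hp5
    have hq5 : q 5 = 0 := by
      unfold BE at h
      rw [z.1, z.2.1, z.2.2.1, z.2.2.2, hp5] at h
      have : p 4 * q 5 = 0 := by linear_combination h
      exact (mul_eq_zero.1 this).resolve_left p4
    have z' := zero5 hH hq hXq hq5
    refine ⟨q 4 / p 4, ?_⟩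
    funext i
    rw [Pi.smul_apply, smul_eq_mul, div_mul_eq_mul_div, eq_div_iff p4]
    fin_cases i
    · show q 0 * p 4 = q 4 * p 0
      rw [z.1, z'.1]; ring
    · show q 1 * p 4 = q 4 * p 1
      rw [z.2.1, z'.2.1]; ring
    · show q 2 * p 4 = q 4 * p 2
      rw [z.2.2.1, z'.2.2.1]; ring
    · show q 3 * p 4 = q 4 * p 3
      rw [z.2.2.2, z'.2.2.2]; ring
    · show q 4 * p 4 = q 4 * p 4
      rfl
    · show q 5 * p 4 = q 4 * p 5
      rw [hp5, hq5]; ring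
  · have hd : QE ρ (fun i => q 5 * p i + p 5 * q i) = 0 := QE_comb h2 p q _ _ hp hq h
    have hdX : SH ρ β (fun i => q 5 * p i + p 5 * q i) := by
      obtain ⟨a0, a2⟩ := hXp
      obtain ⟨b0, b2⟩ := hXq
      refine ⟨?_, ?_⟩
      · show q 5 * p 0 + p 5 * q 0 = 0
        rw [a0, b0]; ring
      · show q 5 * p 2 + p 5 * q 2 = β * ρ ^ 2 * (q 5 * p 1 + p 5 * q 1)
        rw [a2, b2]; ring
    have z := zero5 hH hd hdX (by
      show q 5 * p 5 + p 5 * q 5 = 0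
      linear_combination p 5 * q 5 * h2)
    exact pivot5 h2 hp5 h z.1 z.2.1 z.2.2.1 z.2.2.2

end H74PE
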