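import Pool.Agent.K6.H74.PE.Stm

/-!
# Piece CTT
-/

namespace H74PE

namespace CTT

variable {K : Type} [Field K]

theorem nf0 {ρ : K} (h2 : (2 : K) = 0) (hρ : ∀ t : K, t ^ 2 + t ≠ ρ ^ 2) {a b : K}
    (h : NF ρ a b = 0) : a = 0 ∧ b = 0 := by
  unfold NF at h
  have hb : b = 0 := by
    by_contra hb
    apply hρ (a / b)
    have e1 : (a / b) ^ 2 + a / b = (a ^ 2 + a * b) / b ^ 2 := by field_simp
    rw [e1, div_eq_iff (pow_ne_zero 2 hb)]
    linear_combination h - ρ ^ 2 * b ^ 2 * h2
  subst hb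
  refine ⟨?_, rfl⟩
  have : a ^ 2 = 0 := by linear_combination h
  exact pow_eq_zero_iff (two_ne_zero) |>.mp this

end CTT

theorem t_CTT : S_CTT := by
  intro K _ ρ β hyp p q hp hq hQp hQq hp' hq' hB
  obtain ⟨h2, hρ, -⟩ := hyp
  obtain ⟨p1, p05⟩ := hp'
  obtain ⟨q1, q05⟩ := hq'
  unfold QE at hQp hQq
  unfold BE at hB
  by_cases hp5 : p 5 = 0
  · have a := CTT.nf0 h2 hρ (a := p 2) (b := p 3) (by
      unfold NF at *
      rw [p05, hp5, p1] at hQp
      linear_combination hQp)
    have hp4 : p 4 ≠ 0 := by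
      intro h
      apply hp
      funext i
      fin_cases i
      · simpa [p05] using hp5
      · simpa using p1
      · simpa using a.1
      · simpa using a.2
      · simpa using h
      · simpa using hp5
    have hq5 : q 5 = 0 := by
      rw [p1, a.1, a.2, hp5, q1] at hB
      have : p 4 * q 5 = 0 := by linear_combination hB
      exact (mul_eq_zero.mp this).resolve_left hp4
    have b := CTT.nf0 h2 hρ (a := q 2) (b := q 3) (by
      unfold NF at *
      rw [q05, hq5, q1] at hQq
      linear_combination hQq)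
    refine ⟨q 4 / p 4, ?_⟩
    funext i
    fin_cases i
    · simp [p05, hp5, q05, hq5]
    · simp [p1, q1]
    · simp [a.1, b.1]
    · simp [a.2, b.2]
    · simp [div_mul_cancel₀ _ hp4]
    · simp [hp5, hq5]
  · have a := CTT.nf0 h2 hρ (a := q 5 * p 2 + p 5 * q 2) (b := q 5 * p 3 + p 5 * q 3) (by
      unfold NF at *
      rw [p1, p05] at hQp
      rw [q1, q05] at hQq
      rw [p1, q1] at hB
      linear_combination (q 5) ^ 2 * hQp + (p 5) ^ 2 * hQq + p 5 * q 5 * hB
        - ((q 5) ^ 2 * (p 5) ^ 2 + (p 5) * (q 5) * (p 4 * q 5 + p 5 * q 4) -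
            (p 2 * q 2 + ρ ^ 2 * p 3 * q 3) * p 5 * q 5) * h2)
    have e2 : q 2 = q 5 / p 5 * p 2 := by
      rw [div_mul_eq_mul_div, eq_div_iff hp5]
      linear_combination a.1 - q 5 * p 2 * h2
    have e3 : q 3 = q 5 / p 5 * p 3 := by
      rw [div_mul_eq_mul_div, eq_div_iff hp5]
      linear_combination a.2 - q 5 * p 3 * h2
    have e4 : q 4 = q 5 / p 5 * p 4 := by
      rw [div_mul_eq_mul_div, eq_div_iff hp5]
      rw [p1, q1] at hB
      have h3 : p 2 * q 3 + p 3 * q 2 = 0 := by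
        rw [e2, e3]
        linear_combination (q 5 / p 5 * p 2 * p 3) * h2
      linear_combination hB - h3 - p 4 * q 5 * h2
    refine ⟨q 5 / p 5, ?_⟩
    funext i
    fin_cases i
    · simp [p05, q05, div_mul_cancel₀ _ hp5]
    · simp [p1, q1]
    · simpa using e2
    · simpa using e3
    · simpa using e4
    · simp [div_mul_cancel₀ _ hp5]

end H74PE
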