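import Pool.Agent.K6.H74.PE.Stm

/-! Piece CWW (helper31) of the even case of `MP_9569f1_co` (helper74). -/

namespace H74PE

namespace CWW

theorem aniso {K : Type} [Field K] {ρ : K} (h2 : (2 : K) = 0) (hA : ∀ t : K, t ^ 2 + t ≠ ρ ^ 2)
    {x y : K} (h : NF ρ x y = 0) : x = 0 ∧ y = 0 := by
  unfold NF at h
  have hy : y = 0 := by
    by_contra hy
    apply hA (x / y)
    field_simp
    linear_combination h - ρ ^ 2 * y ^ 2 * h2
  subst hy
  refine ⟨?_, rfl⟩
  have : x ^ 2 = 0 := by linear_combination h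
  exact pow_eq_zero_iff (two_ne_zero) |>.1 this

theorem cross {K : Type} [Field K] {β b : K} (h2 : (2 : K) = 0) {p q : Fin 6 → K}
    (h1 : p 1 = 0) (h0 : p 0 = b * p 5) (h3 : p 3 ≠ β * p 0)
    (k5 : q 5 = 0) (k3 : q 3 = 0) (k2 : q 2 ≠ 0) (k4 : q 4 = b * (q 1 + β * q 2))
    (hB : BE p q = 0) : False := by
  unfold BE at hB
  apply h3
  have : q 2 * (p 3 - β * p 0) = 0 := by
    rw [k5, k3, k4, h1, h0] at hB
    rw [h0]
    linear_combination hB - b * p 5 * q 1 * h2 - b * p 5 * β * q 2 * h2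
  rcases mul_eq_zero.1 this with h | h
  · exact absurd h k2
  · linear_combination h

end CWW

open CWW in
theorem t_CWW : S_CWW := by
  intro K _ ρ β b hH hb p q hp hq hQp hQq hWp hWq hB
  obtain ⟨h2, hA, hN⟩ := hH
  unfold WW at hWp hWq
  rcases hWp with ⟨p1, p0, p5, p3⟩ | ⟨p5, p3, p2, p4⟩
  · rcases hWq with ⟨q1, q0, q5, q3⟩ | ⟨q5, q3, q2, q4⟩
    · unfold QE NF at hQp hQq
      unfold BE at hB
      rw [p1, p0] at hQp
      rw [q1, q0] at hQq
      rw [p1, q1, p0, q0] at hB
      have hd : NF ρ (q 5 * p 2 + p 5 * q 2) (q 5 * p 3 + p 5 * q 3) = 0 := by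
        unfold NF
        linear_combination (q 5) ^ 2 * hQp + (p 5) ^ 2 * hQq + (p 5 * q 5) * hB
          + (p 5 * q 5 * p 2 * q 2 - b ^ 2 * p 5 ^ 2 * q 5 ^ 2
            + ρ ^ 2 * p 5 * q 5 * p 3 * q 3 - q 5 ^ 2 * p 4 * p 5 - p 5 ^ 2 * q 4 * q 5) * h2
      obtain ⟨e2, e3⟩ := aniso h2 hA hd
      have e4 : q 5 * p 4 + p 5 * q 4 = 0 := by
        have : (p 5 * q 5) * (q 5 * p 4 + p 5 * q 4) = 0 := by
          have e2' : q 5 * p 2 = p 5 * q 2 := by linear_combination e2 - p 5 * q 2 * h2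
          have e3' : q 5 * p 3 = p 5 * q 3 := by linear_combination e3 - p 5 * q 3 * h2
          have hs : NF ρ (q 5 * p 2) (q 5 * p 3) = NF ρ (p 5 * q 2) (p 5 * q 3) := by rw [e2', e3']
          unfold NF at hs
          linear_combination (q 5) ^ 2 * hQp - (p 5) ^ 2 * hQq - hs + p 5 ^ 2 * q 4 * q 5 * h2
        rcases mul_eq_zero.1 this with h | h
        · exact absurd h (mul_ne_zero p5 q5)
        · exact h
      refine ⟨q 5 / p 5, ?_⟩
      funext i
      have key : ∀ x y : K, q 5 * x + p 5 * y = 0 → y = q 5 / p 5 * x := by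
        intro x y h
        field_simp
        linear_combination h - q 5 * x * h2
      fin_cases i
      · refine key _ _ ?_
        show q 5 * p 0 + p 5 * q 0 = 0
        rw [p0, q0]; linear_combination b * p 5 * q 5 * h2
      · refine key _ _ ?_
        show q 5 * p 1 + p 5 * q 1 = 0
        rw [p1, q1]; ring
      · exact key _ _ e2
      · exact key _ _ e3
      · exact key _ _ e4
      · refine key _ _ ?_
        show q 5 * p 5 + p 5 * q 5 = 0
        linear_combination p 5 * q 5 * h2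
    · exact (cross h2 p1 p0 p3 q5 q3 q2 q4 hB).elim
  · rcases hWq with ⟨q1, q0, q5, q3⟩ | ⟨q5, q3, q2, q4⟩
    · refine (cross h2 q1 q0 q3 p5 p3 p2 p4 ?_).elim
      unfold BE at hB ⊢
      linear_combination hB
    · unfold QE NF at hQp hQq
      unfold BE at hB
      rw [p5, p3] at hQp
      rw [q5, q3] at hQq
      rw [p5, p3, q5, q3] at hB
      have hd : NF ρ (q 2 * p 0 + p 2 * q 0) (q 2 * p 1 + p 2 * q 1) = 0 := by
        unfold NF
        linear_combination (q 2) ^ 2 * hQp + (p 2) ^ 2 * hQq + (p 2 * q 2) * hB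
          + (p 2 * q 2 * p 0 * q 0 - p 2 ^ 2 * q 2 ^ 2
            + ρ ^ 2 * p 2 * q 2 * p 1 * q 1) * h2
      obtain ⟨e0, e1⟩ := aniso h2 hA hd
      refine ⟨q 2 / p 2, ?_⟩
      funext i
      have key : ∀ x y : K, q 2 * x + p 2 * y = 0 → y = q 2 / p 2 * x := by
        intro x y h
        field_simp
        linear_combination h - q 2 * x * h2
      fin_cases i
      · exact key _ _ e0
      · exact key _ _ e1
      · refine key _ _ ?_
        show q 2 * p 2 + p 2 * q 2 = 0
        linear_combination p 2 * q 2 * h2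
      · refine key _ _ ?_
        show q 2 * p 3 + p 2 * q 3 = 0
        rw [p3, q3]; ring
      · refine key _ _ ?_
        show q 2 * p 4 + p 2 * q 4 = 0
        rw [p4, q4]
        linear_combination b * e1 + b * β * p 2 * q 2 * h2
      · refine key _ _ ?_
        show q 2 * p 5 + p 2 * q 5 = 0
        rw [p5, q5]; ring

end H74PE
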