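import Pool.Agent.K6.H74.PE.CSH

/-! Piece CXX of call74e (helper82): the spread `X` is a cap. -/

set_option autoImplicit false

namespace H74PE

namespace CXX

variable {K : Type} [Field K]

/-- first type: `p 1 = 0`, `p 3 = β p 0`; if `p 5 = 0` then all the first four vanish -/
theorem zeroA {ρ β : K} (hH : Hyp ρ β) {p : Fin 6 → K} (hp : QE ρ p = 0) (h1 : p 1 = 0)
    (h3 : p 3 = β * p 0) (h5 : p 5 = 0) : p 0 = 0 ∧ p 2 = 0 ∧ p 3 = 0 := by
  obtain ⟨h2, hρ, hβ⟩ := hH
  have h0 : p 0 = 0 := by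
    by_contra h0
    refine hβ (p 2 / p 0) β ?_ rfl
    unfold QE NF at hp
    rw [h1, h3, h5] at hp
    unfold NF
    field_simp
    linear_combination hp - p 0 ^ 2 * h2
  have e3 : p 3 = 0 := by rw [h3, h0, mul_zero]
  refine ⟨h0, ?_, e3⟩
  unfold QE NF at hp
  rw [h0, h1, e3, h5] at hp
  have : p 2 ^ 2 = 0 := by linear_combination hp
  exact pow_eq_zero_iff two_ne_zero |>.1 this

/-- the mixed case is impossible -/
theorem mixed {ρ β : K} (hH : Hyp ρ β) {p q : Fin 6 → K} (hq : QE ρ q = 0) (h : BE p q = 0)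
    (hA : p 1 = 0 ∧ p 3 = β * p 0 ∧ p 0 ≠ p 5)
    (hB : q 5 = 0 ∧ q 3 = 0 ∧ q 4 = q 1 + β * q 2 ∧ q 2 ≠ 0) : False := by
  obtain ⟨h2, hρ, hβ⟩ := hH
  obtain ⟨a1, a3, a0⟩ := hA
  obtain ⟨b5, b3, b4, b2⟩ := hB
  have e1 : (p 0 + p 5) * (q 1 + β * q 2) = 0 := by
    unfold BE at h
    rw [a1, a3, b5, b3, b4] at h
    linear_combination h
  rcases mul_eq_zero.1 e1 with e2 | e2
  · exact a0 (by linear_combination e2 - p 5 * h2)
  · have e3 : q 1 = β * q 2 := by linear_combination e2 - β * q 2 * h2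
    refine hβ (q 0 / q 2) (q 1 / q 2) ?_ (by rw [e3]; field_simp)
    unfold QE NF at hq
    rw [b5, b3] at hq
    unfold NF
    field_simp
    linear_combination hq - q 2 ^ 2 * h2

end CXX

open CSH CXX in
/-- CXX -/
theorem t_CXX : S_CXX := by
  intro K _ ρ β hH p q hp0 hq0 hp hq hXp hXq h
  have h2 := hH.1
  have hsymm : BE q p = 0 := by
    unfold BE at h ⊢
    linear_combination h
  rcases hXp with hA | hB
  · rcases hXq with hA' | hB'
    · obtain ⟨a1, a3, a0⟩ := hA
      obtain ⟨b1, b3, b0⟩ := hA'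
      have hp5 : p 5 ≠ 0 := by
        intro h5
        have := (zeroA hH hp a1 a3 h5).1
        exact a0 (by rw [this, h5])
      have hd : QE ρ (fun i => q 5 * p i + p 5 * q i) = 0 := QE_comb h2 p q _ _ hp hq h
      have d1 : q 5 * p 1 + p 5 * q 1 = 0 := by rw [a1, b1]; ring
      have z := zeroA hH hd d1 (by
        show q 5 * p 3 + p 5 * q 3 = β * (q 5 * p 0 + p 5 * q 0)
        rw [a3, b3]; ring) (by
        show q 5 * p 5 + p 5 * q 5 = 0
        linear_combination p 5 * q 5 * h2)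
      exact pivot5 h2 hp5 h z.1 d1 z.2.1 z.2.2
    · exact (mixed hH hq h hA hB').elim
  · rcases hXq with hA' | hB'
    · exact (mixed hH hp hsymm hA' hB).elim
    · obtain ⟨a5, a3, a4, a2⟩ := hB
      obtain ⟨b5, b3, b4, b2⟩ := hB'
      have hd : QE ρ (fun i => q 2 * p i + p 2 * q i) = 0 := QE_comb h2 p q _ _ hp hq h
      have hN : NF ρ (q 2 * p 0 + p 2 * q 0) (q 2 * p 1 + p 2 * q 1) = 0 := by
        unfold QE at hd
        simp only at hd
        rw [a5, b5, a3, b3] at hd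
        unfold NF at hd ⊢
        linear_combination hd - 2 * q 2 ^ 2 * p 2 ^ 2 * h2
      obtain ⟨d0, d1⟩ := NF_zero h2 hH.2.1 hN
      refine ⟨q 2 / p 2, ?_⟩
      funext i
      rw [Pi.smul_apply, smul_eq_mul, div_mul_eq_mul_div, eq_div_iff a2]
      fin_cases i
      · show q 0 * p 2 = q 2 * p 0
        linear_combination d0 - q 2 * p 0 * h2
      · show q 1 * p 2 = q 2 * p 1
        linear_combination d1 - q 2 * p 1 * h2
      · show q 2 * p 2 = q 2 * p 2
        rfl
      · show q 3 * p 2 = q 2 * p 3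
        rw [a3, b3]; ring
      · show q 4 * p 2 = q 2 * p 4
        rw [a4, b4]
        linear_combination d1 - q 2 * p 1 * h2
      · show q 5 * p 2 = q 2 * p 5
        rw [a5, b5]; ring

end H74PE
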