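import Pool.Agent.K6.H74.PE.Stm

set_option autoImplicit false

/-! # CY1 (by helper33) -/

namespace H74PE

theorem t_CY1 : S_CY1 := by
  intro K _ ρ β ⟨h2, hρ, hβ⟩
  have hb : β ≠ 0 := fun h => hβ 1 0 (by simp [NF]) h.symm
  refine ⟨⟨?_, ?_, ?_, ?_, ?_⟩, ⟨?_, ?_, ?_, ?_, ?_⟩, ⟨?_, ?_, ?_, ?_, ?_⟩, fun c => ⟨?_, ?_, ?_, ?_, ?_⟩⟩
  · simp only [QE, NF, e1, Matrix.cons_val]
    linear_combination h2
  · simp only [QE, NF, e2, Matrix.cons_val]
    linear_combination h2
  · simp only [QE, NF, e3, Matrix.cons_val]
    ring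
  · simp only [QE, NF, e4, Matrix.cons_val]
    linear_combination (ρ ^ 2) * h2
  · simp only [QE, NF, e5, Matrix.cons_val]
    linear_combination (ρ ^ 2 * β ^ 2 + β ^ 4 * ρ ^ 4) * h2
  · simp only [BE, e1, e2, Matrix.cons_val]
    ring
  · simp only [BE, e2, e3, Matrix.cons_val]
    ring
  · simp only [BE, e3, e4, Matrix.cons_val]
    ring
  · simp only [BE, e4, e5, Matrix.cons_val]
    ring
  · simp only [BE, e5, e1, Matrix.cons_val]
    linear_combination β * h2
  · intro h
    have := congrFun h 0
    simp [e1] at this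
  · intro h
    have := congrFun h 0
    simp [e2] at this
  · intro h
    have := congrFun h 5
    simp [e3] at this
  · intro h
    have := congrFun h 1
    simp [e4] at this
  · intro h
    have := congrFun h 5
    simp [e5] at this
  · intro h
    have a4 := congrFun h 4
    simp only [e1, e2, Pi.smul_apply, smul_eq_mul, Matrix.cons_val, mul_zero] at a4
    exact hb a4
  · intro h
    have := congrFun h 0
    simp [e2, e3] at this
  · intro h
    have := congrFun h 5
    simp [e3, e4] at this
  · intro h
    have a5 := congrFun h 5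
    have a1 := congrFun h 1
    simp only [e4, e5, Pi.smul_apply, smul_eq_mul, Matrix.cons_val, mul_one] at a5 a1
    rw [← a5, zero_mul] at a1
    exact one_ne_zero a1
  · intro h
    have := congrFun h 5
    simp [e5, e1] at this

end H74PE
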