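import Pool.Agent.K6.H74.PE.Stm

set_option autoImplicit false

/-! # CY2 (by helper33) -/

namespace H74PE

theorem t_CY2 : S_CY2 := by
  intro K _ ρ β ⟨h2, hρ, hβ⟩
  have hb : β ≠ 0 := fun h => hβ 1 0 (by simp [NF]) h.symm
  have hr0 : ρ ≠ 0 := fun h => hρ 0 (by rw [h]; ring)
  have hbr : 1 + β * ρ ≠ 0 := by
    intro h
    refine hβ 0 ρ⁻¹ ?_ ?_
    · simp only [NF]
      field_simp
      ring
    · have h3 : β * ρ = 1 := by linear_combination h - h2
      exact (eq_inv_of_mul_eq_one_left h3).symm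
  refine ⟨⟨?_, ?_, ?_, ?_, ?_⟩, ⟨?_, ?_, ?_, ?_, ?_⟩, ⟨?_, ?_, ?_, ?_, ?_⟩, ⟨?_, ?_, ?_, ?_, ?_⟩,
    ⟨?_, ?_, ?_, ?_, ?_⟩⟩
  -- e1
  · rintro (⟨h0, -⟩ | ⟨-, h0, -⟩) <;>
    · simp only [e1, Matrix.cons_val] at h0
      exact one_ne_zero h0
  · rintro ⟨-, h0⟩
    simp only [e1, Matrix.cons_val] at h0
    exact one_ne_zero h0
  · rintro r t hr (⟨-, h1, -⟩ | ⟨-, c, hc, -, h3, -⟩)
    · simp only [e1, Matrix.cons_val] at h1
      exact hr (by linear_combination h1)
    · simp only [e1, Matrix.cons_val] at h3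
      exact mul_ne_zero hc hr h3.symm
  · rintro t - (⟨-, h1, -⟩ | ⟨-, c, -, h3, -⟩)
    · simp only [e1, Matrix.cons_val] at h1
      exact one_ne_zero (by linear_combination h1 : (1 : K) = 0)
    · simp only [e1, Matrix.cons_val] at h3
      exact one_ne_zero (by linear_combination h3 : (1 : K) = 0)
  · rintro b - hb1 (⟨-, h1, -⟩ | ⟨-, -, -, h1⟩)
    · simp only [e1, Matrix.cons_val] at h1
      exact one_ne_zero (by linear_combination h1 : (1 : K) = 0)
    · simp only [e1, Matrix.cons_val] at h1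
      have h3 : (b - 1) * β = 0 := by linear_combination -h1
      rcases mul_eq_zero.1 h3 with h | h
      · exact hb1 (sub_eq_zero.1 h)
      · exact hb h
  -- e2
  · rintro (⟨h0, -⟩ | ⟨-, h0, -⟩) <;>
    · simp only [e2, Matrix.cons_val] at h0
      exact one_ne_zero h0
  · rintro ⟨-, h0⟩
    simp only [e2, Matrix.cons_val] at h0
    exact one_ne_zero h0
  · rintro r t hr (⟨-, h1, -⟩ | ⟨-, c, hc, -, h3, -⟩)
    · simp only [e2, Matrix.cons_val] at h1
      exact hr (by linear_combination h1)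
    · simp only [e2, Matrix.cons_val] at h3
      exact mul_ne_zero hc hr h3.symm
  · rintro t - (⟨-, h1, -⟩ | ⟨-, c, -, h3, -⟩)
    · simp only [e2, Matrix.cons_val] at h1
      exact one_ne_zero (by linear_combination h1 : (1 : K) = 0)
    · simp only [e2, Matrix.cons_val] at h3
      exact one_ne_zero (by linear_combination h3 : (1 : K) = 0)
  · rintro b hb0 - (⟨-, h1, -⟩ | ⟨-, -, -, h1⟩)
    · simp only [e2, Matrix.cons_val] at h1
      exact one_ne_zero (by linear_combination h1 : (1 : K) = 0)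
    · simp only [e2, Matrix.cons_val] at h1
      exact mul_ne_zero hb0 hb (by linear_combination -h1)
  -- e3
  · rintro (⟨-, -, h0⟩ | ⟨h0, -⟩)
    · simp only [e3, Matrix.cons_val] at h0
      exact h0 rfl
    · simp only [e3, Matrix.cons_val] at h0
      exact one_ne_zero h0
  · rintro ⟨-, h0⟩
    simp only [e3, Matrix.cons_val] at h0
    exact one_ne_zero h0.symm
  · rintro r t - (⟨h0 | h0, -⟩ | ⟨h0, -⟩)
    · simp only [e3, Matrix.cons_val] at h0
      exact h0 rfl
    · simp only [e3, Matrix.cons_val] at h0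
      exact h0 rfl
    · simp only [e3, Matrix.cons_val] at h0
      exact one_ne_zero h0
  · rintro t - (⟨h0 | h0, -⟩ | ⟨h0, -⟩)
    · simp only [e3, Matrix.cons_val] at h0
      exact h0 rfl
    · simp only [e3, Matrix.cons_val] at h0
      exact h0 rfl
    · simp only [e3, Matrix.cons_val] at h0
      exact one_ne_zero h0
  · rintro b hb0 - (⟨-, h1, -⟩ | ⟨h0, -⟩)
    · simp only [e3, Matrix.cons_val] at h1
      exact hb0 (by linear_combination -h1)
    · simp only [e3, Matrix.cons_val] at h0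
      exact one_ne_zero h0
  -- e4
  · rintro (⟨-, h0, -⟩ | ⟨-, h0, -⟩)
    · simp only [e4, Matrix.cons_val] at h0
      exact one_ne_zero h0
    · simp only [e4, Matrix.cons_val] at h0
      exact hr0 h0
  · rintro ⟨h0, -⟩
    simp only [e4, Matrix.cons_val] at h0
    exact one_ne_zero h0
  · rintro r t hr (⟨-, h1, -⟩ | ⟨-, c, hc, -, h3, -⟩)
    · simp only [e4, Matrix.cons_val] at h1
      exact one_ne_zero (by linear_combination -h1 : (1 : K) = 0)
    · simp only [e4, Matrix.cons_val] at h3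
      exact mul_ne_zero hc hr h3.symm
  · rintro t - (⟨-, -, h1⟩ | ⟨-, c, -, h3, -⟩)
    · simp only [e4, Matrix.cons_val] at h1
      exact mul_ne_zero hr0 hbr (by linear_combination -h1)
    · simp only [e4, Matrix.cons_val] at h3
      exact hr0 (by linear_combination h3)
  · rintro b hb0 - (⟨h0, -⟩ | ⟨-, -, -, h1⟩)
    · simp only [e4, Matrix.cons_val] at h0
      exact one_ne_zero h0
    · simp only [e4, Matrix.cons_val] at h1
      exact mul_ne_zero hb0 hbr h1.symm
  -- e5
  · rintro (⟨-, h0, -⟩ | ⟨h0, -⟩)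
    · simp only [e5, Matrix.cons_val] at h0
      exact hb h0
    · simp only [e5, Matrix.cons_val] at h0
      exact one_ne_zero h0
  · rintro ⟨h0, -⟩
    simp only [e5, Matrix.cons_val] at h0
    exact hb h0
  · rintro r t - (⟨-, h1, -⟩ | ⟨h0, -⟩)
    · simp only [e5, Matrix.cons_val] at h1
      exact hb (by linear_combination -h1)
    · simp only [e5, Matrix.cons_val] at h0
      exact one_ne_zero h0
  · rintro t ht (⟨-, -, h1⟩ | ⟨h0, -⟩)
    · simp only [e5, Matrix.cons_val] at h1
      exact ht (by linear_combination h1 + (β ^ 2 * ρ ^ 2) * h2)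
    · simp only [e5, Matrix.cons_val] at h0
      exact one_ne_zero h0
  · rintro b - - (⟨h0, -⟩ | ⟨h0, -⟩)
    · simp only [e5, Matrix.cons_val] at h0
      exact hb h0
    · simp only [e5, Matrix.cons_val] at h0
      exact one_ne_zero h0

end H74PE
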