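import Pool.Agent.K6.H74.PE.Stm

/-! Piece CYH of call74e (helper52). -/

set_option autoImplicit false

namespace H74PE

namespace CYH

variable {K : Type} [Field K]

lemma aniso {ρ a b : K} (h2 : (2 : K) = 0) (hρ : ∀ t : K, t ^ 2 + t ≠ ρ ^ 2)
    (h : NF ρ a b = 0) : a = 0 ∧ b = 0 := by
  unfold NF at h
  by_cases hb : b = 0
  · subst hb
    refine ⟨?_, rfl⟩
    have : a ^ 2 = 0 := by linear_combination h
    exact pow_eq_zero_iff (two_ne_zero) |>.1 this
  · exfalso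
    apply hρ (a / b)
    field_simp
    linear_combination h - ρ ^ 2 * b ^ 2 * h2

lemma prop {p q : Fin 6 → K} (h2 : (2 : K) = 0) (s t : K) (ht : t ≠ 0)
    (h : ∀ i, s * p i + t * q i = 0) : ∃ c : K, q = c • p := by
  refine ⟨s / t, funext fun i => ?_⟩
  have h1 := h i
  rw [Pi.smul_apply, smul_eq_mul]
  field_simp
  linear_combination h1 - s * p i * h2

end CYH

open CYH in
theorem t_CYH : S_CYH := by
  intro K _ ρ β hH p q _ _ hp hq hXp hXq hB
  obtain ⟨h2, hρ, -⟩ := hH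
  unfold QE at hp hq
  unfold BE at hB
  rcases hXp with ⟨a0, a1, a2⟩ | ⟨a5, a2, a4, a3⟩ <;> rcases hXq with ⟨b0, b1, b2⟩ | ⟨b5, b2, b4, b3⟩
  · -- A, A
    rw [a0, a1] at hp
    rw [b0, b1] at hq
    rw [a0, a1, b0, b1] at hB
    have hz : NF ρ (0 : K) 0 = 0 := by unfold NF; ring
    rw [hz] at hp hq
    have hp5 : p 5 ≠ 0 := by
      intro h
      rw [h] at hp
      exact a2 (aniso h2 hρ (by linear_combination hp : NF ρ (p 2) (p 3) = 0)).1
    have hq5 : q 5 ≠ 0 := by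
      intro h
      rw [h] at hq
      exact b2 (aniso h2 hρ (by linear_combination hq : NF ρ (q 2) (q 3) = 0)).1
    unfold NF at hp hq
    have hN : NF ρ (q 5 * p 2 + p 5 * q 2) (q 5 * p 3 + p 5 * q 3) = 0 := by
      unfold NF
      linear_combination (q 5) ^ 2 * hp + (p 5) ^ 2 * hq + p 5 * q 5 * hB +
        (p 5 * q 5 * (p 2 * q 2 + ρ ^ 2 * p 3 * q 3) - p 5 * q 5 * (p 4 * q 5 + p 5 * q 4)) * h2
    obtain ⟨d2, d3⟩ := aniso h2 hρ hN
    have d4 : q 5 * p 4 + p 5 * q 4 = 0 := by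
      have h : p 5 * (q 5 * p 4 + p 5 * q 4) = 0 := by
        linear_combination p 5 * hB - p 2 * d3 - p 3 * d2 + q 5 * p 2 * p 3 * h2
      exact (mul_eq_zero.1 h).resolve_left hp5
    refine prop h2 (q 5) (p 5) hp5 fun i => ?_
    fin_cases i
    · show q 5 * p 0 + p 5 * q 0 = 0
      rw [a0, b0]; ring
    · show q 5 * p 1 + p 5 * q 1 = 0
      rw [a1, b1]; ring
    · exact d2
    · exact d3
    · exact d4
    · show q 5 * p 5 + p 5 * q 5 = 0
      linear_combination q 5 * p 5 * h2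
  · exfalso
    rw [a0, a1, b5, b2, b4] at hB
    have : p 2 * q 3 = 0 := by linear_combination hB
    rcases mul_eq_zero.1 this with h | h
    · exact a2 h
    · exact b3 h
  · exfalso
    rw [b0, b1, a5, a2, a4] at hB
    have : p 3 * q 2 = 0 := by linear_combination hB
    rcases mul_eq_zero.1 this with h | h
    · exact a3 h
    · exact b2 h
  · -- B, B
    rw [a5, a2, a4] at hp
    rw [b5, b2, b4] at hq
    rw [a5, a2, a4, b5, b2, b4] at hB
    unfold NF at hp hq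
    have hN : NF ρ (q 3 * p 0 + p 3 * q 0) (q 3 * p 1 + p 3 * q 1) = 0 := by
      unfold NF
      linear_combination (q 3) ^ 2 * hp + (p 3) ^ 2 * hq + p 3 * q 3 * hB +
        (p 3 * q 3 * (p 0 * q 0 + ρ ^ 2 * p 1 * q 1) - ρ ^ 2 * p 3 ^ 2 * q 3 ^ 2) * h2
    obtain ⟨d0, d1⟩ := aniso h2 hρ hN
    refine prop h2 (q 3) (p 3) a3 fun i => ?_
    fin_cases i
    · exact d0
    · exact d1
    · show q 3 * p 2 + p 3 * q 2 = 0
      rw [a2, b2]; ring
    · show q 3 * p 3 + p 3 * q 3 = 0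
      linear_combination q 3 * p 3 * h2
    · show q 3 * p 4 + p 3 * q 4 = 0
      rw [a4, b4]; ring
    · show q 3 * p 5 + p 3 * q 5 = 0
      rw [a5, b5]; ring

end H74PE
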