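import Pool.Agent.K6.H74.PE.Stm

/-! Piece CYJ (helper4). -/

set_option autoImplicit false

namespace H74PE

namespace CYJ

variable {K : Type} [Field K]

theorem nf (ρ : K) (h2 : (2 : K) = 0) (h : ∀ t : K, t ^ 2 + t ≠ ρ ^ 2) (a b : K)
    (h0 : NF ρ a b = 0) : a = 0 ∧ b = 0 := by
  unfold NF at h0
  have hb : b = 0 := by
    by_contra hb
    apply h (a / b)
    have : (a / b) ^ 2 + a / b - ρ ^ 2 = (a ^ 2 + a * b + ρ ^ 2 * b ^ 2) / b ^ 2 - 2 * ρ ^ 2 := by
      field_simp
      ring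
    rw [h0, h2] at this
    simp only [zero_div, zero_mul, sub_zero] at this
    exact sub_eq_zero.1 this
  subst hb
  refine ⟨?_, rfl⟩
  have : a ^ 2 = 0 := by linear_combination h0
  exact pow_eq_zero_iff (two_ne_zero) |>.1 this

theorem scal (h2 : (2 : K) = 0) (p q : Fin 6 → K) (a b : K) (hb : b ≠ 0)
    (h : ∀ i, a * p i + b * q i = 0) : ∃ c : K, q = c • p := by
  refine ⟨a / b, ?_⟩
  funext i
  have h1 := h i
  simp only [Pi.smul_apply, smul_eq_mul]
  field_simp
  linear_combination h1 - a * p i * h2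

end CYJ

theorem t_CYJ : S_CYJ := by
  intro K _ ρ β hyp p q _ _ hp hq hXp hXq hB
  obtain ⟨h2, hr, -⟩ := hyp
  unfold QE at hp hq
  unfold BE at hB
  rcases hXp with ⟨p0, p1, p3⟩ | ⟨p5, p3, p4, p2⟩
  · rcases hXq with ⟨q0, q1, q3⟩ | ⟨q5, q3, q4, q2⟩
    · have k5 : p 5 ≠ 0 := by
        intro h5
        apply p3
        rw [p0, p1, h5] at hp
        refine (CYJ.nf ρ h2 hr (p 2) (p 3) ?_).2
        unfold NF at hp ⊢
        linear_combination hp
      have hN : NF ρ (q 5 * p 2 + p 5 * q 2) (q 5 * p 3 + p 5 * q 3) = 0 := by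
        rw [p0, p1] at hp
        rw [q0, q1] at hq
        rw [p0, p1, q0, q1] at hB
        unfold NF at hp hq ⊢
        linear_combination (q 5) ^ 2 * hp + (p 5) ^ 2 * hq + (q 5) * (p 5) * hB +
          (q 5 * p 5 * (p 2 * q 2 + ρ ^ 2 * p 3 * q 3) - q 5 ^ 2 * p 4 * p 5
            - p 5 ^ 2 * q 4 * q 5) * h2
      obtain ⟨d2, d3⟩ := CYJ.nf ρ h2 hr _ _ hN
      have d4 : q 5 * p 4 + p 5 * q 4 = 0 := by
        have e : p 5 * (p 2 * q 3 + p 3 * q 2) = 0 := by
          linear_combination (-(p 3)) * d2 + (p 2) * d3 + (p 5 * p 3 * q 2) * h2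
        have e2 : p 2 * q 3 + p 3 * q 2 = 0 := by
          rcases mul_eq_zero.1 e with h | h
          · exact absurd h k5
          · exact h
        rw [p0, p1, q0, q1] at hB
        linear_combination hB - e2
      refine CYJ.scal h2 p q (q 5) (p 5) k5 ?_
      intro i
      fin_cases i
      · change q 5 * p 0 + p 5 * q 0 = 0
        rw [p0, q0]; ring
      · change q 5 * p 1 + p 5 * q 1 = 0
        rw [p1, q1]; ring
      · exact d2
      · exact d3
      · exact d4
      · change q 5 * p 5 + p 5 * q 5 = 0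
        linear_combination (q 5 * p 5) * h2
    · exfalso
      rw [p0, p1, q5, q3, q4] at hB
      have : p 3 * q 2 = 0 := by linear_combination hB
      rcases mul_eq_zero.1 this with h | h
      · exact p3 h
      · exact q2 h
  · rcases hXq with ⟨q0, q1, q3⟩ | ⟨q5, q3, q4, q2⟩
    · exfalso
      rw [q0, q1, p5, p3, p4] at hB
      have : p 2 * q 3 = 0 := by linear_combination hB
      rcases mul_eq_zero.1 this with h | h
      · exact p2 h
      · exact q3 h
    · have hN : NF ρ (q 2 * p 0 + p 2 * q 0) (q 2 * p 1 + p 2 * q 1) = 0 := by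
        rw [p3, p4, p5] at hp
        rw [q3, q4, q5] at hq
        rw [p3, p4, p5, q3, q4, q5] at hB
        unfold NF at hp hq ⊢
        linear_combination (q 2) ^ 2 * hp + (p 2) ^ 2 * hq + (q 2) * (p 2) * hB +
          (q 2 * p 2 * (p 0 * q 0 + ρ ^ 2 * p 1 * q 1) - q 2 ^ 2 * p 2 ^ 2) * h2
      obtain ⟨d0, d1⟩ := CYJ.nf ρ h2 hr _ _ hN
      refine CYJ.scal h2 p q (q 2) (p 2) p2 ?_
      intro i
      fin_cases i
      · exact d0
      · exact d1
      · change q 2 * p 2 + p 2 * q 2 = 0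
        linear_combination (q 2 * p 2) * h2
      · change q 2 * p 3 + p 2 * q 3 = 0
        rw [p3, q3]; ring
      · change q 2 * p 4 + p 2 * q 4 = 0
        rw [p4, q4]; ring
      · change q 2 * p 5 + p 2 * q 5 = 0
        rw [p5, q5]; ring

end H74PE
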