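import Pool.Agent.K6.H74.PE.Stm

/-!
# Piece DIS
-/

set_option autoImplicit false

namespace H74PE

namespace DIS

/-- The norm form is anisotropic. -/
theorem aniso {K : Type} [Field K] {ρ : K} (h2 : (2 : K) = 0) (h : ∀ t : K, t ^ 2 + t ≠ ρ ^ 2)
    {a b : K} (hN : NF ρ a b = 0) : a = 0 ∧ b = 0 := by
  unfold NF at hN
  have hb : b = 0 := by
    by_contra hb
    apply h (a / b)
    have h3 : a ^ 2 + a * b = ρ ^ 2 * b ^ 2 := by
      linear_combination hN - ρ ^ 2 * b ^ 2 * h2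
    field_simp
    linear_combination h3
  refine ⟨?_, hb⟩
  rw [hb] at hN
  have h4 : a ^ 2 = 0 := by linear_combination hN
  exact (pow_eq_zero_iff two_ne_zero).1 h4

end DIS

theorem t_DIS : S_DIS := by
  intro K _ ρ β hH p _ hq hy ht
  obtain ⟨h2, h, -⟩ := hH
  obtain ⟨h1, h0⟩ := ht
  unfold QE at hq
  rcases hy with ⟨h3, -, h4⟩ | ⟨h5, h3, h4, h6⟩
  · have h5 : p 5 = 0 := h0.symm.trans h3
    have hN : NF ρ (p 2) (p 3) = 0 := by
      rw [h3, h1, h5] at hq
      unfold NF at hq ⊢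
      linear_combination hq
    exact h4 (DIS.aniso h2 h hN).1
  · have h7 : p 0 = 0 := h0.trans h5
    have hN : NF ρ (p 2) (p 3) = 0 := by
      rw [h7, h1, h5] at hq
      unfold NF at hq ⊢
      linear_combination hq
    exact h6 (DIS.aniso h2 h hN).2

end H74PE
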