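import Pool.Agent.K6.H74.PE.Stm

/-! # Piece EX (helper78): the parameters exist -/

set_option autoImplicit false

namespace H74PE

namespace EX

variable {K : Type} [Field K]

lemma two_zero [Finite K] (h : Even (Nat.card K)) : (2 : K) = 0 := by
  classical
  have : Fintype K := Fintype.ofFinite K
  rw [Nat.card_eq_fintype_card] at h
  have h1 : ringChar K = 2 := FiniteField.even_card_iff_char_two.2 (Nat.even_iff.1 h)
  have h2 : ((ringChar K : ℕ) : K) = 0 := ringChar.Nat.cast_ringChar
  rw [h1] at h2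
  exact_mod_cast h2

lemma exists_delta [Finite K] (h2 : (2 : K) = 0) : ∃ δ : K, ∀ t : K, t ^ 2 + t ≠ δ := by
  have h : ¬ Function.Surjective fun t : K => t ^ 2 + t := by
    intro hs
    have hi := Finite.injective_iff_surjective.2 hs
    have h3 : (fun t : K => t ^ 2 + t) 0 = (fun t : K => t ^ 2 + t) 1 := by
      simp only
      linear_combination -h2
    exact zero_ne_one (hi h3)
  rw [Function.Surjective] at h
  push Not at h
  exact h

lemma sq_surj [Finite K] (h2 : (2 : K) = 0) (δ : K) : ∃ ρ : K, δ = ρ ^ 2 := by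
  have h : Function.Surjective fun t : K => t ^ 2 := by
    refine Finite.injective_iff_surjective.1 fun x y hxy => ?_
    have hxy' : x ^ 2 = y ^ 2 := hxy
    have h3 : (x - y) ^ 2 = 0 := by linear_combination hxy' + (y ^ 2 - x * y) * h2
    exact sub_eq_zero.1 (pow_eq_zero_iff (n := 2) (by norm_num) |>.1 h3)
  obtain ⟨ρ, hρ⟩ := h δ
  exact ⟨ρ, hρ.symm⟩

lemma exists_v [Finite K] (h : 2 < Nat.card K) : ∃ v : K, v ≠ 0 ∧ v ≠ 1 := by
  classical
  have : Fintype K := Fintype.ofFinite K
  rw [Nat.card_eq_fintype_card] at h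
  by_contra hn
  push Not at hn
  have h1 : (Finset.univ : Finset K) ⊆ {0, 1} := by
    intro v _
    rw [Finset.mem_insert, Finset.mem_singleton]
    by_cases hv : v = 0
    · exact Or.inl hv
    · exact Or.inr (hn v hv)
  have h2 := Finset.card_le_card h1
  rw [Finset.card_univ] at h2
  have h3 : ({0, 1} : Finset K).card ≤ 2 := Finset.card_le_two
  omega

end EX

open EX in
theorem t_EX : S_EX := by
  intro K _ _ he hc
  have h2 : (2 : K) = 0 := two_zero he
  obtain ⟨δ, hδ⟩ := exists_delta h2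
  obtain ⟨ρ, rfl⟩ := sq_surj h2 δ
  obtain ⟨v, hv0, hv1⟩ := exists_v hc
  refine ⟨ρ, v + v⁻¹, h2, hδ, fun a b hab hb => ?_⟩
  have hvv : v * v⁻¹ = 1 := mul_inv_cancel₀ hv0
  have hβ : v + v⁻¹ ≠ 0 := by
    intro h
    have h3 : (v - 1) ^ 2 = 0 := by
      linear_combination v * h - hvv - v * h2
    have h4 : v - 1 = 0 := by
      by_contra hn
      exact hn (pow_eq_zero_iff (n := 2) (by norm_num) |>.1 h3)
    exact hv1 (sub_eq_zero.1 h4)
  rw [hb, NF] at hab
  set β : K := v + v⁻¹ with hβd
  have h5 : (a + v) * ((a + v) + β) = ρ ^ 2 * β ^ 2 := by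
    have h6 : (a + v) * (a + v⁻¹) = a ^ 2 + a * β + 1 := by
      rw [hβd]
      linear_combination hvv
    have h7 : a + v⁻¹ = (a + v) + β - 2 * v := by rw [hβd]; ring
    have h8 : (a + v) * ((a + v) + β) = a ^ 2 + a * β + 1 := by
      rw [← h6, h7]
      linear_combination (v * (a + v)) * h2
    rw [h8]
    linear_combination hab + (1 - ρ ^ 2 * β ^ 2) * h2
  refine hδ ((a + v) / β) ?_
  have h9 : ((a + v) / β) ^ 2 + (a + v) / β = ((a + v) * ((a + v) + β)) / β ^ 2 := by
    field_simp
  rw [h9, h5]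
  field_simp

end H74PE
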