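import Pool.Agent.K6.H74.PE.Stm

/-! # Piece GA (by helper7): the first colouring covers every line -/

set_option autoImplicit false

namespace H74PE

theorem t_GA (h : S_COV) : S_GA := by
  intro K _ ρ β hy p hp hQ
  have h2 : (2 : K) = 0 := hy.1
  have hβ := hy.2.2
  by_cases h01 : p 0 = 0 ∧ p 1 = 0
  · by_cases hh : p 2 = 0
    · refine ⟨Sum.inr (Sum.inr ()), ?_⟩
      refine ⟨h01.1, ?_⟩
      rw [h01.2, hh, mul_zero]
    · exact ⟨Sum.inr (Sum.inl 0), Or.inr ⟨rfl, Or.inl ⟨h01.1, h01.2, hh⟩⟩⟩
  · have h01' : p 0 ≠ 0 ∨ p 1 ≠ 0 := by
      by_contra h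
      push Not at h
      exact h01 h
    rcases h K ρ β hy p hp hQ h01' with ⟨r, t, hsc⟩ | ⟨t, hsc⟩
    · by_cases hr : r = 0
      · by_cases ht : t = 0
        · refine ⟨Sum.inl (0, 0), Or.inr (Or.inl ⟨rfl, rfl, ?_⟩)⟩
          rw [hr, ht] at hsc
          exact hsc
        · rcases hsc with ⟨-, a1, a2⟩ | ⟨a1, c, hc, a2, a3, a4⟩
          · have hp1 : p 1 = 0 := by
              rw [hr] at a1
              linear_combination -a1
            have hp0 : p 0 ≠ 0 := by
              rcases h01' with a | a
              · exact a
              · exact absurd hp1 a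
            have a3 : t * p 5 = β * p 0 + p 3 := by
              rw [hr] at a2
              linear_combination a2
            have hp5 : p 5 ≠ 0 := by
              intro h5
              apply hβ (p 2 / p 0) β _ rfl
              unfold NF
              have h3 : p 3 = β * p 0 := by
                rw [h5, mul_zero] at a3
                linear_combination -a3 - β * p 0 * h2
              unfold QE NF at hQ
              rw [hp1, h5, h3] at hQ
              field_simp
              linear_combination hQ - p 0 ^ 2 * h2
            have hp3 : p 3 ≠ β * p 0 := by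
              intro h3
              rw [h3] at a3
              have : t * p 5 = 0 := by linear_combination a3 + β * p 0 * h2
              rcases mul_eq_zero.1 this with h | h
              · exact ht h
              · exact hp5 h
            refine ⟨Sum.inl (0, p 0 / p 5), Or.inr (Or.inr ⟨rfl, div_ne_zero hp0 hp5, ?_⟩)⟩
            refine Or.inl ⟨hp1, ?_, hp5, hp3⟩
            field_simp
          · have hp2 : p 2 = c := by rw [a2, mul_one]
            have hp3 : p 3 = 0 := by rw [a3, hr, mul_zero]
            have hp4 : p 4 ≠ 0 := by
              rw [a4]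
              exact mul_ne_zero hc ht
            have hs : p 1 + β * p 2 ≠ 0 := by
              intro h3
              have h1 : p 1 = β * c := by
                rw [hp2] at h3
                linear_combination h3 - β * c * h2
              apply hβ (p 0 / c) β _ rfl
              unfold QE NF at hQ
              rw [a1, hp2, hp3, h1] at hQ
              unfold NF
              field_simp
              linear_combination hQ - c ^ 2 * h2
            refine ⟨Sum.inl (0, p 4 / (p 1 + β * p 2)), Or.inr (Or.inr ⟨rfl,
              div_ne_zero hp4 hs, ?_⟩)⟩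
            refine Or.inr ⟨a1, hp3, ?_, ?_⟩
            · rw [hp2]; exact hc
            · field_simp
      · exact ⟨Sum.inl (r, t), Or.inl ⟨hr, hsc⟩⟩
    · by_cases ht : t = 0
      · rcases hsc with ⟨-, a1, a2⟩ | ⟨a1, c, hc, a2, a3, a4⟩
        · have hp0 : p 0 = 0 := by linear_combination a1
          refine ⟨Sum.inr (Sum.inr ()), hp0, ?_⟩
          rw [ht, hp0] at a2
          linear_combination -a2 - β * ρ ^ 2 * p 1 * h2
        · refine ⟨Sum.inr (Sum.inl 0), Or.inr ⟨rfl, Or.inr ⟨a1, ?_, ?_, ?_⟩⟩⟩
          · rw [a2, mul_zero]
          · rw [a4, ht, mul_zero]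
          · rw [a3, mul_one]
            exact hc
      · exact ⟨Sum.inr (Sum.inl t), Or.inl ⟨ht, hsc⟩⟩

end H74PE
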