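import Pool.Agent.K6.H74.PE.Stm

/-!
# Piece GB: the second colouring covers everything (helper35)
-/

namespace H74PE

theorem t_GB (h : S_COV) : S_GB := by
  intro K _ ρ β hyp p hp hQ
  obtain ⟨h2, hρ, hβ⟩ := hyp
  have hQ' := hQ
  simp only [QE, NF] at hQ'
  by_cases hx : p 0 ≠ 0 ∨ p 1 ≠ 0
  · rcases h K ρ β ⟨h2, hρ, hβ⟩ p hp hQ hx with ⟨r, t, hS⟩ | ⟨t, hS⟩
    · by_cases hr : r = 0
      · subst hr
        rcases hS with ⟨-, ha, hb⟩ | ⟨h5, c, hc, hc2, hc3, hc4⟩
        · have h1 : p 1 = 0 := by linear_combination -ha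
          have h0 : p 0 ≠ 0 := by
            rcases hx with h | h
            · exact h
            · exact absurd h1 h
          have h5 : p 5 ≠ 0 := by
            intro h5
            have h3 : p 3 = β * p 0 := by
              rw [h5, h1] at hb
              linear_combination -hb - β * p 0 * h2
            apply hβ (p 2 / p 0) β _ rfl
            rw [h5, h1, h3] at hQ'
            simp only [NF]
            field_simp
            linear_combination hQ' - p 0 ^ 2 * h2
          by_cases hb1 : p 0 = p 5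
          · exact ⟨Sum.inl (0, 1), Or.inr (Or.inr (Or.inl ⟨rfl, rfl, h1, hb1⟩))⟩
          · by_cases hb3 : p 3 = β * p 0
            · exact ⟨Sum.inl (0, 0), Or.inr (Or.inl ⟨rfl, rfl, Or.inl ⟨h1, hb3, hb1⟩⟩)⟩
            · refine ⟨Sum.inl (0, p 0 / p 5), Or.inr (Or.inr (Or.inr ⟨rfl, div_ne_zero h0 h5, ?_,
                Or.inl ⟨h1, ?_, h5, hb3⟩⟩))⟩
              · intro h6
                rw [div_eq_one_iff_eq h5] at h6
                exact hb1 h6
              · field_simp
        · rw [mul_one] at hc2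
          rw [mul_zero] at hc3
          have h20 : p 2 ≠ 0 := by rw [hc2]; exact hc
          by_cases h4 : p 4 = 0
          · exact ⟨Sum.inr (Sum.inr ()), Or.inr ⟨h5, hc3, h4, h20⟩⟩
          · have hne : p 1 + β * p 2 ≠ 0 := by
              intro h6
              apply hβ (p 0 / p 2) (p 1 / p 2)
              · rw [h5, hc3] at hQ'
                simp only [NF]
                field_simp
                linear_combination hQ' - p 2 ^ 2 * h2
              · rw [div_eq_iff h20]
                linear_combination h6 - β * p 2 * h2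
            by_cases hb1 : p 4 = p 1 + β * p 2
            · exact ⟨Sum.inl (0, 0), Or.inr (Or.inl ⟨rfl, rfl, Or.inr ⟨h5, hc3, hb1, h20⟩⟩)⟩
            · refine ⟨Sum.inl (0, p 4 / (p 1 + β * p 2)), Or.inr (Or.inr (Or.inr ⟨rfl,
                div_ne_zero h4 hne, ?_, Or.inr ⟨h5, hc3, h20, ?_⟩⟩))⟩
              · intro h6
                rw [div_eq_one_iff_eq hne] at h6
                exact hb1 h6
              · field_simp
      · exact ⟨Sum.inl (r, t), Or.inl ⟨hr, hS⟩⟩
    · exact ⟨Sum.inr (Sum.inl t), hS⟩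
  · push Not at hx
    obtain ⟨h0, h1⟩ := hx
    by_cases h3 : p 3 = 0
    · by_cases h5 : p 5 = 0
      · exact ⟨Sum.inl (0, 1), Or.inr (Or.inr (Or.inl ⟨rfl, rfl, h1, by rw [h0, h5]⟩))⟩
      · exact ⟨Sum.inl (0, 0), Or.inr (Or.inl ⟨rfl, rfl, Or.inl ⟨h1, by rw [h3, h0, mul_zero],
          by rw [h0]; exact fun h => h5 h.symm⟩⟩)⟩
    · exact ⟨Sum.inr (Sum.inr ()), Or.inl ⟨h0, h1, h3⟩⟩

end H74PE
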