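import Pool.Agent.K6.H74.PE.Stm

/-!
# GC: all classes of both colourings are caps
-/

namespace H74PE

open H74PK (IsSpread IsCompletePartialPacking Idx Cone)

namespace GCP

lemma mono {K : Type} [Field K] {ρ : K} {X Y : (Fin 6 → K) → Prop} (hY : CapE ρ Y)
    (h : ∀ p, X p → Y p) : CapE ρ X :=
  fun p q hp hq hQp hQq hXp hXq hB => hY p q hp hq hQp hQq (h p hXp) (h q hXq) hB

end GCP

open GCP in
theorem t_GC (h1 : S_CSC) (h2 : S_CWW) (h3 : S_CSH) (h4 : S_CYH) (h5 : S_CTT) (h6 : S_CXX)
    (h7 : S_CYJ) : S_GC := by
  intro K _ ρ β hy
  refine ⟨?_, ?_⟩
  · rintro (⟨r, t⟩ | t | u)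
    · by_cases hr : r = 0
      · by_cases ht : t = 0
        · refine mono (h1 K ρ β 1 0 0 hy (Or.inl one_ne_zero)) ?_
          intro p hp
          rcases hp with h | h | h
          · exact absurd hr h.1
          · exact h.2.2
          · exact absurd ht h.2.1
        · refine mono (h2 K ρ β t hy ht) ?_
          intro p hp
          rcases hp with h | h | h
          · exact absurd hr h.1
          · exact absurd h.2.1 ht
          · exact h.2.2
      · refine mono (h1 K ρ β 1 r t hy (Or.inl one_ne_zero)) ?_
        intro p hp
        rcases hp with h | h | h
        · exact h.2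
        · exact absurd h.1 hr
        · exact absurd h.1 hr
    · by_cases ht : t = 0
      · refine mono (h4 K ρ β hy) ?_
        intro p hp
        rcases hp with h | h
        · exact absurd ht h.1
        · exact h.2
      · refine mono (h1 K ρ β 0 1 t hy (Or.inr one_ne_zero)) ?_
        intro p hp
        rcases hp with h | h
        · exact h.2
        · exact absurd h.1 ht
    · exact h3 K ρ β hy
  · rintro (⟨r, t⟩ | t | u)
    · by_cases hr : r = 0
      · by_cases ht : t = 0
        · refine mono (h6 K ρ β hy) ?_
          intro p hp
          rcases hp with h | h | h | h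
          · exact absurd hr h.1
          · exact h.2.2
          · exact absurd (h.2.1.symm.trans ht) one_ne_zero
          · exact absurd ht h.2.1
        · by_cases ht1 : t = 1
          · refine mono (h5 K ρ β hy) ?_
            intro p hp
            rcases hp with h | h | h | h
            · exact absurd hr h.1
            · exact absurd h.2.1 ht
            · exact h.2.2
            · exact absurd ht1 h.2.2.1
          · refine mono (h2 K ρ β t hy ht) ?_
            intro p hp
            rcases hp with h | h | h | h
            · exact absurd hr h.1
            · exact absurd h.2.1 ht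
            · exact absurd h.2.1 ht1
            · exact h.2.2.2
      · refine mono (h1 K ρ β 1 r t hy (Or.inl one_ne_zero)) ?_
        intro p hp
        rcases hp with h | h | h | h
        · exact h.2
        · exact absurd h.1 hr
        · exact absurd h.1 hr
        · exact absurd h.1 hr
    · exact h1 K ρ β 0 1 t hy (Or.inr one_ne_zero)
    · exact h7 K ρ β hy

end H74PE
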