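import Pool.Agent.K6.H74.PE.Stm

/-! Piece LNS (helper29), adapted from `Pool.Agent.K6.H74.PK.LNS`. -/

set_option autoImplicit false

namespace H74PE

open Submodule
open H74PK (Cone)

namespace LNS

variable {K : Type} [Field K]

theorem key (hQ : S_PLQ) {ρ : K} (h2 : (2 : K) = 0) {X : (Fin 6 → K) → Prop} (hX : Cone X)
    {v w v1 w1 : Fin 4 → K}
    (h : span K {v, w} = span K {v1, w1}) (h1 : ple ρ v1 w1 ≠ 0) (h3 : X (ple ρ v w)) :
    X (ple ρ v1 w1) := by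
  have m1 : v1 ∈ span K {v, w} := by rw [h]; exact subset_span (by simp)
  have m2 : w1 ∈ span K {v, w} := by rw [h]; exact subset_span (by simp)
  obtain ⟨α, β, rfl⟩ := mem_span_pair.1 m1
  obtain ⟨γ, δ, rfl⟩ := mem_span_pair.1 m2
  have e := (hQ K ρ v w v w h2).2.2.2.1 α β γ δ
  rw [e] at h1 ⊢
  refine hX _ _ ?_ h3
  intro h0
  rw [h0, zero_smul] at h1
  exact h1 rfl

end LNS

theorem t_LNS (hQ : S_PLQ) (hZ : S_PLZ) (hR : S_RK) : S_LNS := by
  intro K _ ρ h2 X hX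
  obtain ⟨hR1, hR2⟩ := hR K ρ h2
  constructor
  · rintro hC W ⟨hW, v, w, hWe, hvw⟩ W' ⟨hW', v', w', hWe', hvw'⟩ hne
    rw [Submodule.disjoint_def]
    intro x hx hx'
    by_contra hx0
    apply hne
    obtain ⟨y, hy⟩ := hR2 W x hW hx hx0
    obtain ⟨z, hz⟩ := hR2 W' x hW' hx' hx0
    have p1 : ple ρ x y ≠ 0 := (hR1 x y).1 (by rw [← hy]; exact hW)
    have p2 : ple ρ x z ≠ 0 := (hR1 x z).1 (by rw [← hz]; exact hW')
    have q1 : X (ple ρ x y) := LNS.key hQ h2 hX (by rw [← hWe, ← hy]) p1 hvw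
    have q2 : X (ple ρ x z) := LNS.key hQ h2 hX (by rw [← hWe', ← hz]) p2 hvw'
    obtain ⟨c, hc⟩ := hC _ _ p1 p2 (hQ K ρ x y x y h2).1 (hQ K ρ x z x z h2).1 q1 q2
      (hQ K ρ x y x z h2).2.1
    have e : ple ρ x (z - c • y) = 0 := by
      rw [(hQ K ρ x y x z h2).2.2.2.2 c, hc, sub_self]
    obtain ⟨d, hd⟩ := hZ K ρ h2 x _ hx0 e
    have hle : W' ≤ W := by
      rw [hz, span_le]
      rintro t (rfl | rfl)
      · exact hx
      · rw [show t = d • x + c • y by rw [← hd]; abel]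
        rw [hy]
        exact mem_span_pair.2 ⟨d, c, rfl⟩
    exact (Submodule.eq_of_le_of_finrank_eq hle (by rw [hW, hW'])).symm
  · intro v w hvw
    constructor
    · rintro ⟨hf, v1, w1, h1, h3⟩
      exact LNS.key hQ h2 hX h1.symm hvw h3
    · intro h
      exact ⟨(hR1 v w).2 hvw, v, w, rfl, h⟩

end H74PE
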