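import Pool.Agent.K6.H74.PE.Stm

/-!
# MEET (characteristic two)
-/

set_option autoImplicit false

namespace H74PE

private theorem ple_zero {K : Type} [Field K] (ρ : K) (w : Fin 4 → K) : ple ρ 0 w = 0 := by
  funext i
  fin_cases i <;> simp [ple, me]

private theorem coef_zero (hQ : S_PLQ) {K : Type} [Field K] (ρ : K) (h2 : (2 : K) = 0)
    (v w : Fin 4 → K) (h : ple ρ v w ≠ 0) (x y : K) (hxy : x • v + y • w = 0) :
    x = 0 ∧ y = 0 := by
  have key : ∀ γ δ : K, x * δ - y * γ = 0 := by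
    intro γ δ
    have h1 := (hQ K ρ v w v w h2).2.2.2.1 x y γ δ
    rw [hxy, ple_zero] at h1
    by_contra hne
    exact h ((smul_eq_zero.1 h1.symm).resolve_left hne)
  refine ⟨by simpa using key 0 1, by simpa using key 1 0⟩

theorem t_MEET (hQ : S_PLQ) (_hZ : S_PLZ) : S_MEET := by
  intro K _ ρ h2 v w v' w' h h' hB
  have hdet : (Matrix.of ![v, w, v', w']).det = 0 := by
    rw [← (hQ K ρ v w v' w' h2).2.2.1, hB]
  obtain ⟨c, hc, hc0⟩ := Matrix.exists_vecMul_eq_zero_iff.2 hdet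
  have hsum : c 0 • v + c 1 • w + c 2 • v' + c 3 • w' = 0 := by
    funext j
    have h3 := congrFun hc0 j
    simp only [Matrix.vecMul, dotProduct, Fin.sum_univ_four, Matrix.of_apply, Matrix.cons_val,
      Pi.zero_apply] at h3
    simpa using h3
  refine ⟨c 0 • v + c 1 • w, ?_, ?_, ?_⟩
  · intro hx
    obtain ⟨h5, h6⟩ := coef_zero hQ ρ h2 v w h _ _ hx
    have hx' : c 2 • v' + c 3 • w' = 0 := by
      rw [hx, zero_add] at hsum
      exact hsum
    obtain ⟨h7, h8⟩ := coef_zero hQ ρ h2 v' w' h' _ _ hx'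
    apply hc
    funext i
    fin_cases i
    · exact h5
    · exact h6
    · exact h7
    · exact h8
  · exact Submodule.mem_span_pair.2 ⟨c 0, c 1, rfl⟩
  · refine Submodule.mem_span_pair.2 ⟨-c 2, -c 3, ?_⟩
    rw [neg_smul, neg_smul]
    have h9 : c 0 • v + c 1 • w + (c 2 • v' + c 3 • w') = 0 := by rw [← hsum]; abel
    rw [eq_comm, eq_neg_of_add_eq_zero_left h9]
    abel

end H74PE
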