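import Pool.Agent.K6.H74.PE.Stm

/-! Piece PLQ (helper48): the Klein correspondence in characteristic two. -/

set_option autoImplicit false

namespace H74PE

theorem t_PLQ : S_PLQ := by
  intro K _ ρ v w v' w' h
  refine ⟨?_, ?_, ?_, ?_, ?_⟩
  · simp only [QE, NF, ple, me, Matrix.cons_val]
    linear_combination ((1) * (v 0) * (v 0) * (w 1) * (w 1) + (1) * (v 0) * (v 0) * (w 1) * (w 1) * ρ * ρ + (3) * (v 0) * (v 0) * (w 1) * (w 2) * ρ * ρ + (1) * (v 0) * (v 0) * (w 2) * (w 2) * ρ * ρ + (1) * (v 0) * (v 0) * (w 2) * (w 2) * ρ * ρ * ρ * ρ + (2) * (v 0) * (v 1) * (w 0) * (w 1) + (2) * (v 0) * (v 1) * (w 0) * (w 1) * ρ * ρ + (3) * (v 0) * (v 1) * (w 0) * (w 2) * ρ * ρ + (2) * (v 0) * (v 1) * (w 1) * (w 3) + (1) * (v 0) * (v 1) * (w 2) * (w 3) + (2) * (v 0) * (v 1) * (w 2) * (w 3) * ρ * ρ + (3) * (v 0) * (v 2) * (w 0)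 * (w 1) * ρ * ρ + (2) * (v 0) * (v 2) * (w 0) * (w 2) * ρ * ρ + (2) * (v 0) * (v 2) * (w 0) * (w 2) * ρ * ρ * ρ * ρ + (1) * (v 0) * (v 2) * (w 1) * (w 3) + (2) * (v 0) * (v 2) * (w 1) * (w 3) * ρ * ρ + (2) * (v 0) * (v 2) * (w 2) * (w 3) * ρ * ρ + (2) * (v 0) * (v 3) * (w 1) * (w 1) + (1) * (v 0) * (v 3) * (w 1) * (w 2) + (4) * (v 0) * (v 3) * (w 1) * (w 2) * ρ * ρ + (2) * (v 0) * (v 3) * (w 2) * (w 2) * ρ * ρ + (1) * (v 1) * (v 1) * (w 0) * (w 0) + (1) * (v 1) * (v 1) * (w 0) * (w 0) * ρ * ρ + (2) * (v 1) * (v 1) * (w 0) * (w 3) + (1) * (v 1) * (v 1) * (w 3) * (w 3) + (3) * (v 1) * (v 2) * (w 0) * (w 0) * ρ * ρ + (1) * (v 1) * (v 2) * (w 0) * (w 3) + (4) * (v 1) * (v 2) * (w 0) * (w 3) * ρ * ρ + (1) * (v 1) * (v 2) * (w 3) * (w 3) + (2) * (v 1) * (v 3) * (w 0) * (w 1) + (1) * (v 1) * (v 3) * (w 0) * (w 2) + (2) *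 (v 1) * (v 3) * (w 0) * (w 2) * ρ * ρ + (2) * (v 1) * (v 3) * (w 1) * (w 3) + (1) * (v 1) * (v 3) * (w 2) * (w 3) + (1) * (v 2) * (v 2) * (w 0) * (w 0) * ρ * ρ + (1) * (v 2) * (v 2) * (w 0) * (w 0) * ρ * ρ * ρ * ρ + (2) * (v 2) * (v 2) * (w 0) * (w 3) * ρ * ρ + (1) * (v 2) * (v 2) * (w 3) * (w 3) * ρ * ρ + (1) * (v 2) * (v 3) * (w 0) * (w 1) + (2) * (v 2) * (v 3) * (w 0) * (w 1) * ρ * ρ + (2) * (v 2) * (v 3) * (w 0) * (w 2) * ρ * ρ + (1) * (v 2) * (v 3) * (w 1) * (w 3) + (2) * (v 2) * (v 3) * (w 2) * (w 3) * ρ * ρ + (1) * (v 3) * (v 3) * (w 1) * (w 1) + (1) * (v 3) * (v 3) * (w 1) * (w 2) + (1) * (v 3) * (v 3) * (w 2) * (w 2) * ρ * ρ) * h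
  · simp only [BE, ple, me, Matrix.cons_val]
    linear_combination ((1) * (v 0) * (v 0) * (w 1) * (w' 1) + (1) * (v 0) * (v 0) * (w 1) * (w' 2) * ρ * ρ + (1) * (v 0) * (v 0) * (w 2) * (w' 1) * ρ * ρ + (1) * (v 0) * (v 0) * (w 2) * (w' 2) * ρ * ρ + (1) * (v 0) * (v 1) * (w 0) * (w' 1) + (1) * (v 0) * (v 1) * (w 0) * (w' 2) * ρ * ρ + (1) * (v 0) * (v 1) * (w 1) * (w' 0) + (1) * (v 0) * (v 1) * (w 1) * (w' 3) + (1) * (v 0) * (v 1) * (w 2) * (w' 0) * ρ * ρ + (1) * (v 0) * (v 1) * (w 2) * (w' 3) + (1) * (v 0) * (v 1) * (w 3) * (w' 1) + (1) * (v 0) * (v 1) * (w 3) * (w' 2) + (1) * (v 0) * (v 2) * (w 0) * (w' 1) * ρ * ρ + (1) * (v 0) * (v 2) * (w 0) * (w' 2) * ρ * ρ + (1) * (v 0) * (v 2) * (w 1) * (w' 0) * ρ * ρ + (1) * (v 0) * (v 2) * (w 1) * (w' 3) + (1) * (v 0) * (v 2) * (w 2) * (w' 0) * ρ * ρ + (1) * (v 0) * (v 2) *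 (w 2) * (w' 3) * ρ * ρ + (1) * (v 0) * (v 2) * (w 3) * (w' 1) + (1) * (v 0) * (v 2) * (w 3) * (w' 2) * ρ * ρ + (2) * (v 0) * (v 3) * (w 1) * (w' 1) + (1) * (v 0) * (v 3) * (w 1) * (w' 2) + (1) * (v 0) * (v 3) * (w 2) * (w' 1) + (2) * (v 0) * (v 3) * (w 2) * (w' 2) * ρ * ρ + (1) * (v 1) * (v 1) * (w 0) * (w' 0) + (1) * (v 1) * (v 1) * (w 0) * (w' 3) + (1) * (v 1) * (v 1) * (w 3) * (w' 0) + (2) * (v 1) * (v 2) * (w 0) * (w' 0) * ρ * ρ + (1) * (v 1) * (v 2) * (w 0) * (w' 3) + (1) * (v 1) * (v 2) * (w 3) * (w' 0) + (2) * (v 1) * (v 2) * (w 3) * (w' 3) + (1) * (v 1) * (v 3) * (w 0) * (w' 1) + (1) * (v 1) * (v 3) * (w 0) * (w' 2) + (1) * (v 1) * (v 3) * (w 1) * (w' 0) + (1) * (v 1) * (v 3) * (w 2) * (w' 0) + (1) * (v 1) * (v 3) * (w 2) * (w' 3) + (1) * (v 1) * (v 3) * (w 3) * (w' 2) + (1) * (v 2) * (v 2) * (w 0) * (w' 0)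 * ρ * ρ + (1) * (v 2) * (v 2) * (w 0) * (w' 3) * ρ * ρ + (1) * (v 2) * (v 2) * (w 3) * (w' 0) * ρ * ρ + (1) * (v 2) * (v 3) * (w 0) * (w' 1) + (1) * (v 2) * (v 3) * (w 0) * (w' 2) * ρ * ρ + (1) * (v 2) * (v 3) * (w 1) * (w' 0) + (1) * (v 2) * (v 3) * (w 1) * (w' 3) + (1) * (v 2) * (v 3) * (w 2) * (w' 0) * ρ * ρ + (1) * (v 2) * (v 3) * (w 3) * (w' 1) + (1) * (v 3) * (v 3) * (w 1) * (w' 2) + (1) * (v 3) * (v 3) * (w 2) * (w' 1)) * h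
  · rw [Matrix.det_succ_row_zero]
    simp [BE, ple, me, Matrix.det_succ_row_zero, Fin.sum_univ_succ, Fin.succAbove]
    linear_combination ((1) * (v 0) * (v' 0) * (w 1) * (w' 1) + (1) * (v 0) * (v' 0) * (w 1) * (w' 2) * ρ * ρ + (1) * (v 0) * (v' 0) * (w 2) * (w' 1) * ρ * ρ + (1) * (v 0) * (v' 0) * (w 2) * (w' 2) * ρ * ρ + (1) * (v 0) * (v' 1) * (w 1) * (w' 0) + (1) * (v 0) * (v' 1) * (w 1) * (w' 3) + (1) * (v 0) * (v' 1) * (w 2) * (w' 0) * ρ * ρ + (1) * (v 0) * (v' 1) * (w 2) * (w' 3) + (1) * (v 0) * (v' 2) * (w 1) * (w' 0) * ρ * ρ + (1) * (v 0) * (v' 2) * (w 2) * (w' 0) * ρ * ρ + (1) * (v 0) * (v' 2) * (w 2) * (w' 3) * ρ * ρ + (1) * (v 0) * (v' 2) * (w 3) * (w' 1) + (1) * (v 0) * (v' 3) * (w 1) * (w' 1) + (1) * (v 0) * (v' 3) * (w 1) * (w' 2) + (1) * (v 0) * (v' 3) * (w 2) * (w' 2) * ρ * ρ + (1) * (v 1) * (v' 0)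 * (w 0) * (w' 1) + (1) * (v 1) * (v' 0) * (w 0) * (w' 2) * ρ * ρ + (1) * (v 1) * (v' 0) * (w 3) * (w' 1) + (1) * (v 1) * (v' 0) * (w 3) * (w' 2) + (1) * (v 1) * (v' 1) * (w 0) * (w' 0) + (1) * (v 1) * (v' 1) * (w 0) * (w' 3) + (1) * (v 1) * (v' 1) * (w 3) * (w' 0) + (1) * (v 1) * (v' 2) * (w 0) * (w' 0) * ρ * ρ + (1) * (v 1) * (v' 2) * (w 0) * (w' 3) + (1) * (v 1) * (v' 2) * (w 3) * (w' 3) + (1) * (v 1) * (v' 3) * (w 0) * (w' 1) + (1) * (v 1) * (v' 3) * (w 2) * (w' 0) + (1) * (v 1) * (v' 3) * (w 3) * (w' 2) + (1) * (v 2) * (v' 0) * (w 0) * (w' 1) * ρ * ρ + (1) * (v 2) * (v' 0) * (w 0) * (w' 2) * ρ * ρ + (1) * (v 2) * (v' 0) * (w 1) * (w' 3) + (1) * (v 2) * (v' 0) * (w 3) * (w' 2) * ρ * ρ + (1) * (v 2) * (v' 1) * (w 0) * (w' 0) * ρ * ρ + (1) * (v 2) * (v' 1) * (w 3) * (w' 0) + (1) * (v 2) * (v' 1) * (w 3) * (w' 3)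 + (1) * (v 2) * (v' 2) * (w 0) * (w' 0) * ρ * ρ + (1) * (v 2) * (v' 2) * (w 0) * (w' 3) * ρ * ρ + (1) * (v 2) * (v' 2) * (w 3) * (w' 0) * ρ * ρ + (1) * (v 2) * (v' 3) * (w 0) * (w' 1) + (1) * (v 2) * (v' 3) * (w 0) * (w' 2) * ρ * ρ + (1) * (v 2) * (v' 3) * (w 3) * (w' 1) + (1) * (v 3) * (v' 0) * (w 1) * (w' 1) + (1) * (v 3) * (v' 0) * (w 2) * (w' 1) + (1) * (v 3) * (v' 0) * (w 2) * (w' 2) * ρ * ρ + (1) * (v 3) * (v' 1) * (w 0) * (w' 2) + (1) * (v 3) * (v' 1) * (w 1) * (w' 0) + (1) * (v 3) * (v' 1) * (w 2) * (w' 3) + (1) * (v 3) * (v' 2) * (w 1) * (w' 0) + (1) * (v 3) * (v' 2) * (w 1) * (w' 3) + (1) * (v 3) * (v' 2) * (w 2) * (w' 0) * ρ * ρ + (1) * (v 3) * (v' 3) * (w 1) * (w' 2) + (1) * (v 3) * (v' 3) * (w 2) * (w' 1)) * h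
  · intro α β γ δ
    funext i
    fin_cases i
    · simp [ple, me]
      linear_combination ((1) * (v 0) * (v 2) * α * γ * ρ * ρ + (1) * (v 0) * (w 2) * β * γ * ρ * ρ + (1) * (v 1) * (v 3) * α * γ + (1) * (v 1) * (w 3) * β * γ + (1) * (v 2) * (w 0) * β * γ * ρ * ρ + (1) * (v 3) * (w 1) * β * γ + (1) * (w 0) * (w 2) * β * δ * ρ * ρ + (1) * (w 1) * (w 3) * β * δ) * h
    · simp [ple, me]
      linear_combination ((1) * (v 0) * (v 1) * α * γ + (1) * (v 0) * (v 2) * α * γ + (1) * (v 0) * (w 1) * β * γ + (1) * (v 0) * (w 2) * β * γ + (1) * (v 1) * (w 0) * β * γ + (1) * (v 2) * (v 3) * α * γ + (1) * (v 2) * (w 0) * β * γ + (1) * (v 2) * (w 3) * β * γ + (1) * (v 3) * (w 2) * β * γ + (1) * (w 0) * (w 1) * β * δ + (1) * (w 0) * (w 2) * β * δ + (1) * (w 2) * (w 3) * β * δ) * h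
    · simp [ple, me]
      linear_combination ((1) * (v 0) * (v 1) * α * γ + (1) * (v 0) * (v 2) * α * γ * ρ * ρ + (1) * (v 0) * (w 1) * β * γ + (1) * (v 0) * (w 2) * β * γ * ρ * ρ + (1) * (v 1) * (v 3) * α * γ + (1) * (v 1) * (w 0) * β * γ + (1) * (v 1) * (w 3) * β * γ + (1) * (v 2) * (w 0) * β * γ * ρ * ρ + (1) * (v 3) * (w 1) * β * γ + (1) * (w 0) * (w 1) * β * δ + (1) * (w 0) * (w 2) * β * δ * ρ * ρ + (1) * (w 1) * (w 3) * β * δ) * h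
    · simp [ple, me]
      linear_combination ((1) * (v 0) * (v 1) * α * γ + (1) * (v 0) * (w 1) * β * γ + (1) * (v 1) * (w 0) * β * γ + (1) * (v 2) * (v 3) * α * γ + (1) * (v 2) * (w 3) * β * γ + (1) * (v 3) * (w 2) * β * γ + (1) * (w 0) * (w 1) * β * δ + (1) * (w 2) * (w 3) * β * δ) * h
    · simp [ple, me]
      linear_combination ((1) * (v 0) * (v 3) * α * γ + (1) * (v 0) * (w 3) * β * γ + (1) * (v 3) * (w 0) * β * γ + (1) * (w 0) * (w 3) * β * δ) * h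
    · simp [ple, me]
      linear_combination ((1) * (v 1) * (v 2) * α * γ + (1) * (v 1) * (w 2) * β * γ + (1) * (v 2) * (w 1) * β * γ + (1) * (w 1) * (w 2) * β * δ) * h
  · intro c
    funext i
    fin_cases i <;> simp [ple, me] <;> ring

end H74PE
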