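import Pool.Agent.K6.H74.PE.Stm

/-!
# PLZ
-/

set_option autoImplicit false

namespace H74PE

theorem t_PLZ : S_PLZ := by
  intro K _ ρ h2 v w hv h
  have e0 := congrFun h 0
  have e1 := congrFun h 1
  have e2 := congrFun h 2
  have e3 := congrFun h 3
  have e4 := congrFun h 4
  have e5 := congrFun h 5
  simp only [ple, Matrix.cons_val, Pi.zero_apply] at e0 e1 e2 e3 e4 e5
  have h01 : me v w 0 1 = 0 := by linear_combination e2 - e0
  have h23 : me v w 2 3 = 0 := by linear_combination e3 - h01
  have h02 : me v w 0 2 = 0 := by linear_combination e1 - e3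
  have h13 : me v w 1 3 = 0 := by linear_combination e0 - ρ ^ 2 * h02
  have key : ∀ i j, w j * v i = w i * v j := by
    unfold me at *
    intro i j
    fin_cases i <;> fin_cases j <;> simp only [Fin.zero_eta, Fin.mk_one, Fin.reduceFinMk,
      Fin.isValue] at *
    · linear_combination h01 - v 1 * w 0 * h2
    · linear_combination h02 - v 2 * w 0 * h2
    · linear_combination e4 - v 3 * w 0 * h2
    · linear_combination -h01 + v 1 * w 0 * h2
    · linear_combination e5 - v 2 * w 1 * h2
    · linear_combination h13 - v 3 * w 1 * h2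
    · linear_combination -h02 + v 2 * w 0 * h2
    · linear_combination -e5 + v 2 * w 1 * h2
    · linear_combination h23 - v 3 * w 2 * h2
    · linear_combination -e4 + v 3 * w 0 * h2
    · linear_combination -h13 + v 3 * w 1 * h2
    · linear_combination -h23 + v 3 * w 2 * h2
  have hi : ∃ i, v i ≠ 0 := by
    by_contra hne
    push Not at hne
    exact hv (funext hne)
  obtain ⟨i, hi⟩ := hi
  refine ⟨w i / v i, ?_⟩
  funext j
  rw [Pi.smul_apply, smul_eq_mul, div_mul_eq_mul_div, eq_div_iff hi]
  exact key i j

end H74PE
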