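import Pool.Agent.K6.H74.PE.Stm
import Pool.Agent.K6.H74.PK.SUR

set_option autoImplicit false

/-! Piece SUR (helper13). -/

namespace H74PE

theorem t_SUR : S_SUR := by
  intro K _ ρ h2 p hp hQ
  have hQ' : (p 0 ^ 2 + p 0 * p 1 + ρ ^ 2 * p 1 ^ 2) + (p 2 ^ 2 + p 2 * p 3 + ρ ^ 2 * p 3 ^ 2) +
      p 4 * p 5 = 0 := hQ
  obtain ⟨v, w, e01, e02, e03, e12, e13, e23⟩ := H74PK.SURaux.plucker
    (p 0 + p 2) (p 1 + p 3) (p 4) (p 5) (p 0 + ρ ^ 2 * (p 1 + p 3)) (p 0 + p 2 + p 3)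
    (by
      linear_combination hQ' +
        (p 0 * p 2 - p 0 * p 1 - ρ ^ 2 * p 1 ^ 2 - ρ ^ 2 * p 3 ^ 2 - ρ ^ 2 * p 1 * p 3) * h2)
    (by
      rintro ⟨a1, a2, a3, a4, a5, a6⟩
      apply hp
      have b3 : p 3 = 0 := by linear_combination a6 - a1
      have b1 : p 1 = 0 := by linear_combination a2 - b3
      have b0 : p 0 = 0 := by linear_combination a5 - ρ ^ 2 * a2
      have b2 : p 2 = 0 := by linear_combination a1 - b0
      funext i
      fin_cases i <;> simp [b0, b1, b2, b3, a3, a4])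
  have hme : ∀ i j : Fin 4, me v w i j = H74PK.mn v w i j := by
    intro i j
    unfold me H74PK.mn
    linear_combination (v j * w i) * h2
  refine ⟨v, w, ?_⟩
  unfold ple
  simp only [hme, e01, e02, e03, e12, e13, e23]
  have k0 : p 0 + ρ ^ 2 * (p 1 + p 3) + ρ ^ 2 * (p 1 + p 3) = p 0 := by
    linear_combination (ρ ^ 2 * (p 1 + p 3)) * h2
  have k1 : p 1 + p 3 + (p 0 + p 2) + (p 0 + p 2 + p 3) = p 1 := by
    linear_combination (p 0 + p 2 + p 3) * h2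
  have k2 : p 0 + p 2 + (p 0 + ρ ^ 2 * (p 1 + p 3)) + ρ ^ 2 * (p 1 + p 3) = p 2 := by
    linear_combination (p 0 + ρ ^ 2 * (p 1 + p 3)) * h2
  have k3 : p 0 + p 2 + (p 0 + p 2 + p 3) = p 3 := by
    linear_combination (p 0 + p 2) * h2
  rw [k0, k1, k2, k3]
  funext i
  fin_cases i <;> rfl

end H74PE
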