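import Pool.Agent.K6.H74.PK.Stm

/-!
# Complete partial packings of `PG(3,q)` of deficiency two, `q ≥ 4` even: vocabulary and pieces

Coordinates `p = (x0,x1,y0,y1,s,u)`; `QE ρ p = N(x) + N(y) + s u`, `N(a,b) = a^2+ab+ρ^2 b^2`.
-/

namespace H74PE

open H74PK (IsSpread IsCompletePartialPacking Idx Cone)

section vocab
variable {K : Type} [Field K]

/-- norm form -/
def NF (ρ a b : K) : K := a ^ 2 + a * b + ρ ^ 2 * b ^ 2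

/-- the quadratic form -/
def QE (ρ : K) (p : Fin 6 → K) : K := NF ρ (p 0) (p 1) + NF ρ (p 2) (p 3) + p 4 * p 5

/-- its polar form (characteristic two) -/
def BE (p q : Fin 6 → K) : K :=
  p 0 * q 1 + p 1 * q 0 + p 2 * q 3 + p 3 * q 2 + p 4 * q 5 + p 5 * q 4

/-- a Pluecker minor (characteristic two) -/
def me (v w : Fin 4 → K) (i j : Fin 4) : K := v i * w j + v j * w i

/-- Klein correspondence adapted to `QE ρ` -/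
def ple (ρ : K) (v w : Fin 4 → K) : Fin 6 → K :=
  ![me v w 1 3 + ρ ^ 2 * me v w 0 2,
    me v w 0 2 + me v w 0 1 + me v w 2 3,
    me v w 0 1 + me v w 1 3 + ρ ^ 2 * me v w 0 2,
    me v w 0 1 + me v w 2 3,
    me v w 0 3,
    me v w 1 2]

/-- a cap predicate -/
def CapE (ρ : K) (X : (Fin 6 → K) → Prop) : Prop :=
  ∀ p q : Fin 6 → K, p ≠ 0 → q ≠ 0 → QE ρ p = 0 → QE ρ q = 0 → X p → X q → BE p q = 0 →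
    ∃ c : K, q = c • p

/-- the standing hypotheses -/
def Hyp (ρ β : K) : Prop :=
  (2 : K) = 0 ∧ (∀ t : K, t ^ 2 + t ≠ ρ ^ 2) ∧ ∀ a b : K, NF ρ a b = 1 → b ≠ β

/-- the class of index `(z0,z1,t)` -/
def SC (ρ β z0 z1 t : K) (p : Fin 6 → K) : Prop :=
  ((p 0 ≠ 0 ∨ p 1 ≠ 0) ∧ p 0 * z1 = p 1 * z0 ∧
      t * p 5 = β * (p 0 * z0 + p 0 * z1 + ρ ^ 2 * p 1 * z1) + (p 2 * z1 + p 3 * z0)) ∨
  (p 5 = 0 ∧ ∃ c : K, c ≠ 0 ∧ p 2 = c * z0 ∧ p 3 = c * z1 ∧ p 4 = c * t)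

/-- the class `W_b` -/
def WW (β b : K) (p : Fin 6 → K) : Prop :=
  (p 1 = 0 ∧ p 0 = b * p 5 ∧ p 5 ≠ 0 ∧ p 3 ≠ β * p 0) ∨
  (p 5 = 0 ∧ p 3 = 0 ∧ p 2 ≠ 0 ∧ p 4 = b * (p 1 + β * p 2))

/-- the regular spread `Sigma'_h` -/
def SH (ρ β : K) (p : Fin 6 → K) : Prop := p 0 = 0 ∧ p 2 = β * ρ ^ 2 * p 1

/-- the spread `Y_h` -/
def YH (p : Fin 6 → K) : Prop :=
  (p 0 = 0 ∧ p 1 = 0 ∧ p 2 ≠ 0) ∨ (p 5 = 0 ∧ p 2 = 0 ∧ p 4 = 0 ∧ p 3 ≠ 0)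

/-- the regular spread `T` -/
def TT (p : Fin 6 → K) : Prop := p 1 = 0 ∧ p 0 = p 5

/-- the spread `X` -/
def XX (β : K) (p : Fin 6 → K) : Prop :=
  (p 1 = 0 ∧ p 3 = β * p 0 ∧ p 0 ≠ p 5) ∨ (p 5 = 0 ∧ p 3 = 0 ∧ p 4 = p 1 + β * p 2 ∧ p 2 ≠ 0)

/-- the spread `Y_j` -/
def YJ (p : Fin 6 → K) : Prop :=
  (p 0 = 0 ∧ p 1 = 0 ∧ p 3 ≠ 0) ∨ (p 5 = 0 ∧ p 3 = 0 ∧ p 4 = 0 ∧ p 2 ≠ 0)

/-- first colouring -/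
def G1 (ρ β : K) : Idx K → (Fin 6 → K) → Prop
  | Sum.inl (r, t) => fun p => (r ≠ 0 ∧ SC ρ β 1 r t p) ∨ (r = 0 ∧ t = 0 ∧ SC ρ β 1 0 0 p) ∨
      (r = 0 ∧ t ≠ 0 ∧ WW β t p)
  | Sum.inr (Sum.inl t) => fun p => (t ≠ 0 ∧ SC ρ β 0 1 t p) ∨ (t = 0 ∧ YH p)
  | Sum.inr (Sum.inr _) => fun p => SH ρ β p

/-- second colouring -/
def G2 (ρ β : K) : Idx K → (Fin 6 → K) → Prop
  | Sum.inl (r, t) => fun p => (r ≠ 0 ∧ SC ρ β 1 r t p) ∨ (r = 0 ∧ t = 0 ∧ XX β p) ∨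
      (r = 0 ∧ t = 1 ∧ TT p) ∨ (r = 0 ∧ t ≠ 0 ∧ t ≠ 1 ∧ WW β t p)
  | Sum.inr (Sum.inl t) => fun p => SC ρ β 0 1 t p
  | Sum.inr (Sum.inr _) => fun p => YJ p

/-- the set of lines with Klein point in `X` -/
def Lns (ρ : K) (X : (Fin 6 → K) → Prop) : Set (Submodule K (Fin 4 → K)) :=
  {W | Module.finrank K W = 2 ∧ ∃ v w : Fin 4 → K, W = Submodule.span K {v, w} ∧ X (ple ρ v w)}

/-- the five lines of the odd cycle -/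
def e1 (β : K) : Fin 6 → K := ![1, 0, 1, 0, β, 0]
def e2 (K : Type) [Field K] : Fin 6 → K := ![1, 0, 1, 0, 0, 0]
def e3 (K : Type) [Field K] : Fin 6 → K := ![0, 0, 0, 0, 0, 1]
def e4 (ρ : K) : Fin 6 → K := ![0, 1, ρ, 0, 0, 0]
def e5 (ρ β : K) : Fin 6 → K := ![0, β, β ^ 2 * ρ ^ 2, 0, β ^ 2 * ρ ^ 2 + β ^ 4 * ρ ^ 4, 1]

/-- not in any class of the final partial packing -/
def Left (ρ β : K) (p : Fin 6 → K) : Prop :=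
  ¬ YH p ∧ ¬ TT p ∧ (∀ r t : K, r ≠ 0 → ¬ SC ρ β 1 r t p) ∧
  (∀ t : K, t ≠ 0 → ¬ SC ρ β 0 1 t p) ∧ (∀ b : K, b ≠ 0 → b ≠ 1 → ¬ WW β b p)

end vocab

/-! ## The pieces -/

/-- EX -/
def S_EX : Prop := ∀ (K : Type) [Field K] [Finite K], Even (Nat.card K) → 2 < Nat.card K →
  ∃ ρ β : K, Hyp ρ β

/-- PLQ -/
def S_PLQ : Prop := ∀ (K : Type) [Field K] (ρ : K) (v w v' w' : Fin 4 → K), (2 : K) = 0 →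
  QE ρ (ple ρ v w) = 0 ∧
  BE (ple ρ v w) (ple ρ v w') = 0 ∧
  BE (ple ρ v w) (ple ρ v' w') = (Matrix.of ![v, w, v', w']).det ∧
  (∀ α β γ δ : K, ple ρ (α • v + β • w) (γ • v + δ • w) = (α * δ - β * γ) • ple ρ v w) ∧
  (∀ c : K, ple ρ v (w' - c • w) = ple ρ v w' - c • ple ρ v w)

/-- PLZ -/
def S_PLZ : Prop := ∀ (K : Type) [Field K] (ρ : K), (2 : K) = 0 →
  ∀ v w : Fin 4 → K, v ≠ 0 → ple ρ v w = 0 → ∃ c : K, w = c • v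

/-- SUR -/
def S_SUR : Prop := ∀ (K : Type) [Field K] (ρ : K), (2 : K) = 0 →
  ∀ p : Fin 6 → K, p ≠ 0 → QE ρ p = 0 → ∃ v w : Fin 4 → K, ple ρ v w = p

/-- MEET (may use S_PLQ, S_PLZ as hypotheses) -/
def S_MEET : Prop := ∀ (K : Type) [Field K] (ρ : K), (2 : K) = 0 →
  ∀ v w v' w' : Fin 4 → K, ple ρ v w ≠ 0 → ple ρ v' w' ≠ 0 →
    BE (ple ρ v w) (ple ρ v' w') = 0 →
    ∃ x : Fin 4 → K, x ≠ 0 ∧ x ∈ Submodule.span K {v, w} ∧ x ∈ Submodule.span K {v', w'}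

/-- RK (may use S_PLQ, S_PLZ as hypotheses) -/
def S_RK : Prop := ∀ (K : Type) [Field K] (ρ : K), (2 : K) = 0 →
  (∀ v w : Fin 4 → K, Module.finrank K (Submodule.span K {v, w}) = 2 ↔ ple ρ v w ≠ 0) ∧
  (∀ (W : Submodule K (Fin 4 → K)) (v : Fin 4 → K), Module.finrank K W = 2 → v ∈ W → v ≠ 0 →
    ∃ w : Fin 4 → K, W = Submodule.span K {v, w})

/-- LNS (may use S_PLQ, S_PLZ, S_RK as hypotheses) -/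
def S_LNS : Prop := ∀ (K : Type) [Field K] (ρ : K), (2 : K) = 0 →
  ∀ X : (Fin 6 → K) → Prop, Cone X →
  (CapE ρ X → ∀ W ∈ Lns ρ X, ∀ W' ∈ Lns ρ X, W ≠ W' → Disjoint W W') ∧
  (∀ v w : Fin 4 → K, ple ρ v w ≠ 0 →
    (Submodule.span K {v, w} ∈ Lns ρ X ↔ X (ple ρ v w)))

/-- CSC -/
def S_CSC : Prop := ∀ (K : Type) [Field K] (ρ β z0 z1 t : K), Hyp ρ β →
  (z0 ≠ 0 ∨ z1 ≠ 0) → CapE ρ (SC ρ β z0 z1 t)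

/-- COV -/
def S_COV : Prop := ∀ (K : Type) [Field K] (ρ β : K), Hyp ρ β →
  ∀ p : Fin 6 → K, p ≠ 0 → QE ρ p = 0 → (p 0 ≠ 0 ∨ p 1 ≠ 0) →
    (∃ r t : K, SC ρ β 1 r t p) ∨ (∃ t : K, SC ρ β 0 1 t p)

/-- CWW -/
def S_CWW : Prop := ∀ (K : Type) [Field K] (ρ β b : K), Hyp ρ β → b ≠ 0 → CapE ρ (WW β b)

/-- CSH -/
def S_CSH : Prop := ∀ (K : Type) [Field K] (ρ β : K), Hyp ρ β → CapE ρ (SH ρ β)

/-- CYH -/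
def S_CYH : Prop := ∀ (K : Type) [Field K] (ρ β : K), Hyp ρ β → CapE ρ (YH (K := K))

/-- CTT -/
def S_CTT : Prop := ∀ (K : Type) [Field K] (ρ β : K), Hyp ρ β → CapE ρ (TT (K := K))

/-- CXX -/
def S_CXX : Prop := ∀ (K : Type) [Field K] (ρ β : K), Hyp ρ β → CapE ρ (XX β)

/-- CYJ -/
def S_CYJ : Prop := ∀ (K : Type) [Field K] (ρ β : K), Hyp ρ β → CapE ρ (YJ (K := K))

/-- CONE -/
def S_CONE : Prop := ∀ (K : Type) [Field K] (ρ β : K),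
  (∀ i, Cone (G1 ρ β i)) ∧ (∀ i, Cone (G2 ρ β i))

/-- GC (may use S_CSC, S_CWW, S_CSH, S_CYH, S_CTT, S_CXX, S_CYJ as hypotheses) -/
def S_GC : Prop := ∀ (K : Type) [Field K] (ρ β : K), Hyp ρ β →
  (∀ i, CapE ρ (G1 ρ β i)) ∧ (∀ i, CapE ρ (G2 ρ β i))

/-- GA (may use S_COV as hypothesis) -/
def S_GA : Prop := ∀ (K : Type) [Field K] (ρ β : K), Hyp ρ β →
  ∀ p : Fin 6 → K, p ≠ 0 → QE ρ p = 0 → ∃ i, G1 ρ β i p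

/-- GB (may use S_COV as hypothesis) -/
def S_GB : Prop := ∀ (K : Type) [Field K] (ρ β : K), Hyp ρ β →
  ∀ p : Fin 6 → K, p ≠ 0 → QE ρ p = 0 → ∃ i, G2 ρ β i p

/-- CY1 -/
def S_CY1 : Prop := ∀ (K : Type) [Field K] (ρ β : K), Hyp ρ β →
  (QE ρ (e1 β) = 0 ∧ QE ρ (e2 K) = 0 ∧ QE ρ (e3 K) = 0 ∧ QE ρ (e4 ρ) = 0 ∧ QE ρ (e5 ρ β) = 0) ∧
  (BE (e1 β) (e2 K) = 0 ∧ BE (e2 K) (e3 K) = 0 ∧ BE (e3 K) (e4 ρ) = 0 ∧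
    BE (e4 ρ) (e5 ρ β) = 0 ∧ BE (e5 ρ β) (e1 β) = 0) ∧
  (e1 β ≠ 0 ∧ e2 K ≠ 0 ∧ e3 K ≠ 0 ∧ e4 ρ ≠ 0 ∧ e5 ρ β ≠ 0) ∧
  (∀ c : K, e1 β ≠ c • e2 K ∧ e2 K ≠ c • e3 K ∧ e3 K ≠ c • e4 ρ ∧ e4 ρ ≠ c • e5 ρ β ∧
    e5 ρ β ≠ c • e1 β)

/-- CY2 -/
def S_CY2 : Prop := ∀ (K : Type) [Field K] (ρ β : K), Hyp ρ β →
  Left ρ β (e1 β) ∧ Left ρ β (e2 K) ∧ Left ρ β (e3 K) ∧ Left ρ β (e4 ρ) ∧ Left ρ β (e5 ρ β)

/-- DIS -/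
def S_DIS : Prop := ∀ (K : Type) [Field K] (ρ β : K), Hyp ρ β →
  ∀ p : Fin 6 → K, p ≠ 0 → QE ρ p = 0 → YH p → ¬ TT p

/-- FIN (uses everything) -/
def S_FIN : Prop := ∀ (K : Type) [Field K] [Finite K], Even (Nat.card K) → 2 < Nat.card K →
  ∃ F, IsCompletePartialPacking K 2 F

end H74PE
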